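import Pool.Agent.X9.Li.Asym

set_option autoImplicit false

/-!
# The sets for which the one sided test works are exactly the sets of Bohr recurrence
-/

namespace Pool.Agent.X9.Li

open Complex Finset

lemma norm_eq_one_of_re {ρ : ℂ} (h0 : ρ ≠ 0) : ‖1 - 1 / ρ‖ = 1 ↔ ρ.re = 1 / 2 := by
  have e : 1 - 1 / ρ = (ρ - 1) / ρ := by field_simp
  rw [e, norm_div, div_eq_one_iff_eq (norm_ne_zero_iff.2 h0), ← sq_eq_sq₀ (norm_nonneg _) (norm_nonneg _),
    Complex.sq_norm, Complex.sq_norm, Complex.normSq_apply, Complex.normSq_apply]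
  simp only [Complex.sub_re, Complex.sub_im, Complex.one_re, Complex.one_im]
  constructor
  · intro h
    linarith
  · intro h
    rw [h]
    ring

lemma one_lt_norm_of_re {ρ : ℂ} (h0 : ρ ≠ 0) (h : ρ.re < 1 / 2) : 1 < ‖1 - 1 / ρ‖ := by
  have e : 1 - 1 / ρ = (ρ - 1) / ρ := by field_simp
  rw [e, norm_div, one_lt_div (norm_pos_iff.2 h0), ← sq_lt_sq₀ (norm_nonneg _) (norm_nonneg _),
    Complex.sq_norm, Complex.sq_norm, Complex.normSq_apply, Complex.normSq_apply]
  simp only [Complex.sub_re, Complex.sub_im, Complex.one_re, Complex.one_im]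
  nlinarith

/-- the test works for finite multisets -/
theorem test_of_bohr {S : Set ℕ} (hS : BohrRec S) (Z : Multiset ℂ) (h0 : (0 : ℂ) ∉ Z)
    (hsym : Z.map (fun ρ => 1 - ρ) = Z)
    (h : ∀ n ∈ S, 0 < n → 0 ≤ (Z.map fun ρ => 1 - (1 - 1 / ρ) ^ n).sum.re) : ∀ ρ ∈ Z, ρ.re = 1 / 2 := by
  classical
  by_contra hcon
  push Not at hcon
  obtain ⟨ρ1, hρ1, hre1⟩ := hcon
  obtain ⟨ρ0, hρ0, hre0⟩ : ∃ ρ ∈ Z, ρ.re < 1 / 2 := by
    rcases lt_or_gt_of_ne hre1 with h1 | h1
    · exact ⟨ρ1, hρ1, h1⟩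
    · refine ⟨1 - ρ1, ?_, ?_⟩
      · rw [← hsym]
        exact Multiset.mem_map_of_mem _ hρ1
      · rw [Complex.sub_re, Complex.one_re]
        linarith
  -- as a list
  obtain ⟨l, rfl⟩ : ∃ l : List ℂ, (l : Multiset ℂ) = Z := Quot.exists_rep Z
  set v : Fin l.length → ℂ := fun i => 1 - 1 / l.get i with hv
  have hsum : ∀ n : ℕ, (Multiset.map (fun ρ => 1 - (1 - 1 / ρ) ^ n) (l : Multiset ℂ)).sum = ∑ i, (1 - v i ^ n) := by
    intro n
    rw [Multiset.map_coe, Multiset.sum_coe, ← List.sum_ofFn]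
    congr 1
    conv_lhs => rw [← List.ofFn_get l]
    rw [List.map_ofFn]
    rfl
  obtain ⟨i0, hi0⟩ := List.mem_iff_get.1 (Multiset.mem_coe.1 hρ0)
  have hρ00 : ρ0 ≠ 0 := fun h => h0 (h ▸ hρ0)
  obtain ⟨i1, -, hmax⟩ := Finset.exists_max_image Finset.univ (fun i => ‖v i‖) ⟨i0, Finset.mem_univ _⟩
  set R := ‖v i1‖ with hR
  have hR1 : 1 < R := by
    refine lt_of_lt_of_le ?_ (hmax i0 (Finset.mem_univ _))
    show 1 < ‖1 - 1 / l.get i0‖
    rw [hi0]
    exact one_lt_norm_of_re hρ00 hre0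
  have hRC : (R : ℂ) ≠ 0 := by
    have : R ≠ 0 := by linarith
    exact_mod_cast this
  obtain ⟨q1, hq10, hq1R, hq1⟩ : ∃ q1 : ℝ, 1 ≤ q1 ∧ q1 < R ∧ ∀ i, ‖v i‖ ≠ R → ‖v i‖ ≤ q1 := by
    rcases (Finset.univ.filter fun i => ‖v i‖ ≠ R).eq_empty_or_nonempty with he | he
    · refine ⟨1, le_rfl, hR1, fun i h => ?_⟩
      exfalso
      have : i ∈ Finset.univ.filter fun i => ‖v i‖ ≠ R := Finset.mem_filter.2 ⟨Finset.mem_univ _, h⟩
      rw [he] at this
      simp at this
    · obtain ⟨i2, hi2, hm2⟩ := Finset.exists_max_image _ (fun i => ‖v i‖) he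
      rw [Finset.mem_filter] at hi2
      exact ⟨max 1 ‖v i2‖, le_max_left _ _, max_lt hR1 (lt_of_le_of_ne (hmax i2 hi2.1) hi2.2), fun i h =>
        (hm2 i (Finset.mem_filter.2 ⟨Finset.mem_univ _, h⟩)).trans (le_max_right _ _)⟩
  let ι := {i : Fin l.length // ‖v i‖ = R}
  have : Nonempty ι := ⟨⟨i1, rfl⟩⟩
  have hc : ∀ i : ι, ‖v i / R‖ = 1 := by
    rintro ⟨i, hi⟩
    rw [norm_div, hi, Complex.norm_real, Real.norm_eq_abs, abs_of_pos (lt_trans one_pos hR1)]
    exact div_self (by linarith)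
  obtain ⟨n, hn, -, hn0, hle⟩ := neg_of_bohr (K := 2 * l.length) hS (fun i : ι => v i / R) hc
    (by linarith : (0 : ℝ) < R) (by linarith : (0 : ℝ) ≤ q1) hq1R (fun n => (∑ i, (1 - v i ^ n)).re) (by
      intro n hn
      have e1 : (R : ℂ) ^ n * ∑ i : ι, (v i / R) ^ n = ∑ i ∈ Finset.univ.filter (fun i => ‖v i‖ = R), v i ^ n := by
        rw [Finset.mul_sum, Finset.sum_subtype (p := fun i => ‖v i‖ = R) (Finset.univ.filter fun i => ‖v i‖ = R)
          (by simp) (fun i => v i ^ n)]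
        refine Finset.sum_congr rfl fun i _ => ?_
        rw [div_pow]
        field_simp
      have e2 : (∑ i, (1 - v i ^ n)).re + R ^ n * (∑ i : ι, (v i / R) ^ n).re =
          (∑ i, (1 - v i ^ n) + (R : ℂ) ^ n * ∑ i : ι, (v i / R) ^ n).re := by
        rw [Complex.add_re, ← Complex.ofReal_pow, Complex.re_ofReal_mul]
      have e3 : ∑ i, (1 - v i ^ n) + ∑ i ∈ Finset.univ.filter (fun i => ‖v i‖ = R), v i ^ n =
          (l.length : ℂ) - ∑ i ∈ Finset.univ.filter (fun i => ¬ ‖v i‖ = R), v i ^ n := by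
        rw [Finset.sum_sub_distrib, ← Finset.sum_filter_add_sum_filter_not Finset.univ (fun i => ‖v i‖ = R)
          (fun i => v i ^ n)]
        simp only [Finset.sum_const, Finset.card_univ, Fintype.card_fin, nsmul_eq_mul, mul_one]
        ring
      rw [e2, e1, e3]
      refine (Complex.abs_re_le_norm _).trans ((norm_sub_le _ _).trans ?_)
      have hq1n : 1 ≤ q1 ^ n := one_le_pow₀ hq10
      have b1 : ‖(l.length : ℂ)‖ ≤ l.length * q1 ^ n := by
        rw [Complex.norm_natCast]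
        exact le_mul_of_one_le_right (Nat.cast_nonneg _) hq1n
      have b2 : ‖∑ i ∈ Finset.univ.filter (fun i => ¬ ‖v i‖ = R), v i ^ n‖ ≤ l.length * q1 ^ n := by
        refine (norm_sum_le _ _).trans ?_
        have h5 : ∀ i ∈ Finset.univ.filter (fun i => ¬ ‖v i‖ = R), ‖v i ^ n‖ ≤ q1 ^ n := by
          intro i hi
          rw [norm_pow]
          exact pow_le_pow_left₀ (norm_nonneg _) (hq1 i (Finset.mem_filter.1 hi).2) n
        refine (Finset.sum_le_card_nsmul _ _ _ h5).trans ?_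
        rw [nsmul_eq_mul]
        refine mul_le_mul_of_nonneg_right ?_ (by positivity)
        have := Finset.card_filter_le (Finset.univ : Finset (Fin l.length)) (fun i => ¬ ‖v i‖ = R)
        rw [Finset.card_univ, Fintype.card_fin] at this
        exact_mod_cast this
      linarith) 0
  have h3 := h n hn hn0
  rw [hsum] at h3
  have h4 : 0 < R ^ n := pow_pos (by linarith) n
  linarith

/-! ## the converse -/

lemma exp_sub_one_ge (x : ℝ) : 4 * nrm x ≤ ‖cexp (2 * Real.pi * I * x) - 1‖ := by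
  have h1 : cexp (2 * Real.pi * I * x) = cexp (I * ((2 * Real.pi * (x - round x) : ℝ) : ℂ)) := by
    rw [Complex.exp_eq_exp_iff_exists_int]
    refine ⟨round x, ?_⟩
    push_cast
    ring
  rw [h1, Complex.norm_exp_I_mul_ofReal_sub_one, Real.norm_eq_abs, abs_mul, abs_of_pos (show (0 : ℝ) < 2 by norm_num)]
  have h2 : 2 * Real.pi * (x - round x) / 2 = Real.pi * (x - round x) := by ring
  rw [h2]
  have h3 := abs_sub_round x
  have h4 : |Real.pi * (x - round x)| ≤ Real.pi / 2 := by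
    rw [abs_mul, abs_of_pos Real.pi_pos]
    nlinarith [Real.pi_pos]
  have h5 := Real.mul_abs_le_abs_sin h4
  rw [abs_mul, abs_of_pos Real.pi_pos] at h5
  have h6 : 2 / Real.pi * (Real.pi * |x - round x|) = 2 * |x - round x| := by
    field_simp
  rw [h6] at h5
  unfold nrm
  linarith

lemma geom_bound {x ε : ℝ} (hε : 0 < ε) (h : ε ≤ nrm x) (M : ℕ) :
    ‖∑ a : Fin M, cexp (2 * Real.pi * I * x) ^ (a : ℕ)‖ ≤ 1 / (2 * ε) := by
  have h1 := exp_sub_one_ge x
  have hpos : 0 < ‖cexp (2 * Real.pi * I * x) - 1‖ := by linarith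
  have hne : cexp (2 * Real.pi * I * x) ≠ 1 := by
    intro h
    rw [h, sub_self, norm_zero] at hpos
    exact lt_irrefl _ hpos
  have hn : ‖cexp (2 * Real.pi * I * x)‖ = 1 := by
    rw [Complex.norm_exp]
    simp
  rw [Fin.sum_univ_eq_sum_range (fun a => cexp (2 * Real.pi * I * x) ^ a) M, geom_sum_eq hne, norm_div,
    div_le_div_iff₀ hpos (by positivity)]
  have h2 : ‖cexp (2 * Real.pi * I * x) ^ M - 1‖ ≤ 2 := by
    refine (norm_sub_le _ _).trans ?_
    rw [norm_pow, hn, one_pow, norm_one]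
    norm_num
  nlinarith

lemma triv_bound (x : ℝ) (M : ℕ) : ‖∑ a : Fin M, cexp (2 * Real.pi * I * x) ^ (a : ℕ)‖ ≤ M := by
  have hn : ‖cexp (2 * Real.pi * I * x)‖ = 1 := by
    rw [Complex.norm_exp]
    simp
  refine (norm_sum_le _ _).trans ?_
  simp [norm_pow, hn]

/-- the finite family of frequencies -/
theorem kernel (D : ℕ) (hD : 1 ≤ D) (θ : Fin D → ℝ) {ε : ℝ} (hε : 0 < ε) :
    ∃ (A : Type) (_ : Fintype A) (V : Type) (_ : DecidableEq V) (s : A → V) (E : A → ℂ),
      (∀ k, ‖E k‖ = 1) ∧ (∀ k l, s k = s l → E k = E l) ∧ (∃ k l, s k ≠ s l) ∧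
      ∀ n : ℕ, (∃ i, ε ≤ nrm (n * θ i)) →
        ‖∑ k, E k ^ n‖ ^ 2 ≤ ((Finset.univ.filter fun p : A × A => s p.1 = s p.2).card : ℝ) := by
  classical
  obtain ⟨M0, hM0⟩ := exists_nat_gt ((D : ℝ) / (4 * ε ^ 2))
  set M : ℕ := M0 + 2 with hMdef
  have hM : (D : ℝ) / (4 * ε ^ 2) ≤ M := by
    rw [hMdef]
    push_cast
    linarith
  have hM2 : 2 ≤ M := by omega
  have hMpos : (0 : ℝ) < M := by
    have : 0 < M := by omega
    exact_mod_cast this
  let A := Fin D × Fin D → Fin M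
  have hsb : ∀ (k : A) (i : Fin D), ∑ j, ((k (j, i) : Fin M) : ℕ) < D * M := by
    intro k i
    have h1 : ∑ j : Fin D, ((k (j, i) : Fin M) : ℕ) ≤ ∑ _j : Fin D, (M - 1) :=
      Finset.sum_le_sum fun j _ => by
        have := (k (j, i)).2
        omega
    rw [Finset.sum_const, Finset.card_univ, Fintype.card_fin, smul_eq_mul] at h1
    have h2 : D * (M - 1) < D * M := Nat.mul_lt_mul_of_pos_left (by omega) (by omega)
    omega
  let s : A → (Fin D → Fin (D * M)) := fun k i => ⟨∑ j, ((k (j, i) : Fin M) : ℕ), hsb k i⟩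
  let E : A → ℂ := fun k => ∏ p : Fin D × Fin D, cexp (2 * Real.pi * I * θ p.2) ^ ((k p : Fin M) : ℕ)
  have hnorm : ∀ x : ℝ, ‖cexp (2 * Real.pi * I * x)‖ = 1 := by
    intro x
    rw [Complex.norm_exp]
    simp
  have hEs : ∀ k : A, E k = ∏ i : Fin D, cexp (2 * Real.pi * I * θ i) ^ ((s k i : Fin (D * M)) : ℕ) := by
    intro k
    show ∏ p : Fin D × Fin D, cexp (2 * Real.pi * I * θ p.2) ^ ((k p : Fin M) : ℕ) = _
    rw [Fintype.prod_prod_type_right]
    refine Finset.prod_congr rfl fun i _ => ?_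
    rw [← Finset.prod_pow_eq_pow_sum]
  refine ⟨A, inferInstance, Fin D → Fin (D * M), inferInstance, s, E, ?_, ?_, ?_, ?_⟩
  · intro k
    show ‖∏ p : Fin D × Fin D, cexp (2 * Real.pi * I * θ p.2) ^ ((k p : Fin M) : ℕ)‖ = 1
    rw [norm_prod]
    refine Finset.prod_eq_one fun p _ => ?_
    rw [norm_pow, hnorm, one_pow]
  · intro k l hkl
    rw [hEs, hEs, hkl]
  · refine ⟨fun _ => ⟨0, by omega⟩, fun _ => ⟨1, by omega⟩, fun h => ?_⟩
    have h1 := congrArg Fin.val (congrFun h ⟨0, by omega⟩)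
    simp only [s, Finset.sum_const_zero, Finset.sum_const, Finset.card_univ, Fintype.card_fin, smul_eq_mul,
      mul_one] at h1
    omega
  · rintro n ⟨i0, hi0⟩
    -- the product formula
    have hprod : ∑ k : A, E k ^ n = ∏ p : Fin D × Fin D, ∑ a : Fin M,
        cexp (2 * Real.pi * I * ((n * θ p.2 : ℝ) : ℂ)) ^ (a : ℕ) := by
      rw [Finset.prod_univ_sum, Fintype.piFinset_univ]
      refine Finset.sum_congr rfl fun k _ => ?_
      show (∏ p : Fin D × Fin D, cexp (2 * Real.pi * I * θ p.2) ^ ((k p : Fin M) : ℕ)) ^ n = _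
      rw [← Finset.prod_pow]
      refine Finset.prod_congr rfl fun p _ => ?_
      rw [← pow_mul, mul_comm ((k p : Fin M) : ℕ) n, pow_mul, ← Complex.exp_nat_mul]
      congr 2
      push_cast
      ring
    have hb : ‖∑ k : A, E k ^ n‖ ≤ (1 / (2 * ε)) ^ D * (M : ℝ) ^ (D * (D - 1)) := by
      rw [hprod, norm_prod, Fintype.prod_prod_type_right, ← Finset.mul_prod_erase Finset.univ _ (Finset.mem_univ i0)]
      refine mul_le_mul ?_ ?_ (Finset.prod_nonneg fun i _ => Finset.prod_nonneg fun j _ => norm_nonneg _)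
        (by positivity)
      · show ∏ _x : Fin D, ‖∑ a : Fin M, cexp (2 * Real.pi * I * ((n * θ i0 : ℝ) : ℂ)) ^ (a : ℕ)‖ ≤ _
        rw [Finset.prod_const, Finset.card_univ, Fintype.card_fin]
        exact pow_le_pow_left₀ (norm_nonneg _) (geom_bound hε hi0 M) D
      · have h1 : ∀ i ∈ Finset.univ.erase i0, ∏ _j : Fin D, ‖∑ a : Fin M,
            cexp (2 * Real.pi * I * ((n * θ i : ℝ) : ℂ)) ^ (a : ℕ)‖ ≤ (M : ℝ) ^ D := by
          intro i _
          rw [Finset.prod_const, Finset.card_univ, Fintype.card_fin]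
          exact pow_le_pow_left₀ (norm_nonneg _) (triv_bound _ M) D
        refine (Finset.prod_le_prod (fun i _ => Finset.prod_nonneg fun j _ => norm_nonneg _) h1).trans ?_
        rw [Finset.prod_const, Finset.card_erase_of_mem (Finset.mem_univ _), Finset.card_univ, Fintype.card_fin,
          ← pow_mul]
    -- the diagonal
    have hdiag : ((Fintype.card A : ℝ)) ^ 2 ≤ ((D * M : ℕ) : ℝ) ^ D *
        ((Finset.univ.filter fun p : A × A => s p.1 = s p.2).card : ℝ) := by
      have h1 : (Fintype.card A : ℝ) = ∑ v : Fin D → Fin (D * M), ((Finset.univ.filter fun k : A => s k = v).card : ℝ) := by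
        have := Finset.card_eq_sum_card_fiberwise (s := (Finset.univ : Finset A)) (t := Finset.univ) (f := s)
          (fun _ _ => Finset.mem_coe.2 (Finset.mem_univ _))
        rw [Finset.card_univ] at this
        exact_mod_cast this
      have h2 : ((Finset.univ.filter fun p : A × A => s p.1 = s p.2).card : ℝ) =
          ∑ v : Fin D → Fin (D * M), ((Finset.univ.filter fun k : A => s k = v).card : ℝ) ^ 2 := by
        have := Finset.card_eq_sum_card_fiberwise (s := (Finset.univ.filter fun p : A × A => s p.1 = s p.2))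
          (t := Finset.univ) (f := fun p => s p.1) (fun _ _ => Finset.mem_coe.2 (Finset.mem_univ _))
        rw [this]
        push_cast
        refine Finset.sum_congr rfl fun v _ => ?_
        have h3 : (Finset.univ.filter fun p : A × A => s p.1 = s p.2).filter (fun p => s p.1 = v) =
            (Finset.univ.filter fun k : A => s k = v) ×ˢ (Finset.univ.filter fun k : A => s k = v) := by
          ext ⟨k, l⟩
          simp only [Finset.mem_filter, Finset.mem_univ, true_and, Finset.mem_product]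
          constructor
          · rintro ⟨h4, h5⟩
            exact ⟨h5, h4 ▸ h5⟩
          · rintro ⟨h4, h5⟩
            exact ⟨h4.trans h5.symm, h4⟩
        rw [h3, Finset.card_product]
        push_cast
        ring
      rw [h1, h2]
      refine (sq_sum_le_card_mul_sum_sq (s := Finset.univ)).trans (le_of_eq ?_)
      rw [Finset.card_univ, Fintype.card_fun, Fintype.card_fin, Fintype.card_fin]
      push_cast
      rfl
    have hcardA : (Fintype.card A : ℝ) = (M : ℝ) ^ (D * D) := by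
      show ((Fintype.card (Fin D × Fin D → Fin M) : ℕ) : ℝ) = _
      rw [Fintype.card_fun, Fintype.card_prod, Fintype.card_fin, Fintype.card_fin]
      push_cast
      rfl
    rw [hcardA] at hdiag
    set C : ℝ := ((Finset.univ.filter fun p : A × A => s p.1 = s p.2).card : ℝ) with hC
    have hD0 : (0 : ℝ) < D := by exact_mod_cast hD
    have hDM : (0 : ℝ) < ((D * M : ℕ) : ℝ) ^ D := by
      push_cast
      positivity
    have h5 : ‖∑ k : A, E k ^ n‖ ^ 2 ≤ ((1 / (2 * ε)) ^ D * (M : ℝ) ^ (D * (D - 1))) ^ 2 :=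
      pow_le_pow_left₀ (norm_nonneg _) hb 2
    refine h5.trans ?_
    refine le_of_mul_le_mul_left ?_ hDM
    refine le_trans ?_ hdiag
    have e1 : ((D * M : ℕ) : ℝ) ^ D * ((1 / (2 * ε)) ^ D * (M : ℝ) ^ (D * (D - 1))) ^ 2 =
        ((D : ℝ) / (4 * ε ^ 2)) ^ D * ((M : ℝ) ^ D * (M : ℝ) ^ (2 * (D * (D - 1)))) := by
      push_cast
      have e4 : ((D : ℝ) / (4 * ε ^ 2)) ^ D = (D : ℝ) ^ D * ((1 / (2 * ε)) ^ D) ^ 2 := by
        rw [← pow_mul, mul_comm D 2, pow_mul, ← mul_pow]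
        congr 1
        field_simp
        ring
      rw [e4, mul_pow, mul_pow, ← pow_mul (M : ℝ), mul_comm (D * (D - 1)) 2]
      ring
    have e2 : ((M : ℝ) ^ (D * D)) ^ 2 = (M : ℝ) ^ D * ((M : ℝ) ^ D * (M : ℝ) ^ (2 * (D * (D - 1)))) := by
      rw [← pow_mul, ← pow_add, ← pow_add]
      congr 1
      obtain ⟨d, rfl⟩ : ∃ d, D = d + 1 := ⟨D - 1, by omega⟩
      simp only [Nat.add_sub_cancel]
      ring
    rw [e1, e2]
    exact mul_le_mul_of_nonneg_right (pow_le_pow_left₀ (by positivity) hM D) (by positivity)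

theorem bohr_of_test {S : Set ℕ}
    (H : ∀ Z : Multiset ℂ, (0 : ℂ) ∉ Z → Z.map (starRingEnd ℂ) = Z → Z.map (fun ρ => 1 - ρ) = Z →
      (∀ n ∈ S, 0 < n → 0 ≤ (Z.map fun ρ => 1 - (1 - 1 / ρ) ^ n).sum.re) → ∀ ρ ∈ Z, ρ.re = 1 / 2) :
    BohrRec S := by
  classical
  by_contra hcon
  unfold BohrRec at hcon
  push Not at hcon
  obtain ⟨d, θ, ε, hε, hS⟩ := hcon
  obtain ⟨A, iA, V, iV, s, E, hE1, hE2, ⟨k0, l0, hkl⟩, hE3⟩ := kernel (d + 1) (by omega) (Fin.cons 0 θ) hε
  set c : A × A → ℂ := fun p => E p.1 * (starRingEnd ℂ) (E p.2) with hc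
  have hcn : ∀ p, ‖c p‖ = 1 := by
    intro p
    rw [hc]
    simp only
    rw [norm_mul, RCLike.norm_conj, hE1, hE1, one_mul]
  have hcne : ∀ p, c p ≠ 0 := fun p h => by
    have := hcn p
    rw [h, norm_zero] at this
    exact zero_ne_one this
  have hcinv : ∀ p, (c p)⁻¹ = (starRingEnd ℂ) (c p) := by
    intro p
    rw [Complex.inv_def, Complex.normSq_eq_norm_sq, hcn p]
    simp
  have hcswap : ∀ p, (starRingEnd ℂ) (c p) = c p.swap := by
    intro p
    rw [hc]
    simp only [map_mul, Complex.conj_conj, Prod.fst_swap, Prod.snd_swap]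
    ring
  set W : Finset (A × A) := Finset.univ.filter fun p => s p.1 ≠ s p.2 with hW
  have hWswap : W.val.map Prod.swap = W.val := by
    have h1 : W.map (Equiv.prodComm A A).toEmbedding = W := by
      ext ⟨k, l⟩
      simp only [hW, Finset.mem_map_equiv, Finset.mem_filter, Finset.mem_univ, true_and]
      exact ne_comm
    have h2 := congrArg Finset.val h1
    rw [Finset.map_val] at h2
    exact h2
  set f : A × A → ℂ := fun p => (1 - 2 * c p)⁻¹ with hf
  set g : A × A → ℂ := fun p => (1 - (2 * c p)⁻¹)⁻¹ with hg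
  have h2c : ∀ p, ‖2 * c p‖ = 2 := by
    intro p
    rw [norm_mul, hcn p]
    norm_num
  have hf0 : ∀ p, (1 : ℂ) - 2 * c p ≠ 0 := by
    intro p h
    have h1 : 2 * c p = 1 := (sub_eq_zero.1 h).symm
    have := h2c p
    rw [h1, norm_one] at this
    norm_num at this
  have h2c0 : ∀ p, 2 * c p ≠ 0 := fun p => mul_ne_zero (by norm_num) (hcne p)
  have hg0 : ∀ p, (1 : ℂ) - (2 * c p)⁻¹ ≠ 0 := by
    intro p h
    have h1 : (2 * c p)⁻¹ = 1 := (sub_eq_zero.1 h).symm
    have := h2c p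
    rw [inv_eq_one.1 h1, norm_one] at this
    norm_num at this
  have hfg : ∀ p, 1 - f p = g p := by
    intro p
    rw [hf, hg]
    simp only
    have h1 := hf0 p
    have h2 := hg0 p
    have h3 := h2c0 p
    have h4 : 1 - (2 * c p)⁻¹ = (2 * c p - 1) / (2 * c p) := by
      rw [sub_div, div_self h3, one_div]
    have h5 : 2 * c p - 1 ≠ 0 := by
      intro h
      apply h1
      linear_combination -h
    rw [h4, inv_div]
    rw [eq_div_iff h5, sub_mul, one_mul]
    have h6 : (1 - 2 * c p)⁻¹ * (2 * c p - 1) = -1 := by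
      rw [show (2 * c p - 1) = -(1 - 2 * c p) by ring, mul_neg, inv_mul_cancel₀ h1]
    rw [h6]
    ring
  set Z : Multiset ℂ := W.val.map f + W.val.map g with hZ
  have hZ0 : (0 : ℂ) ∉ Z := by
    intro h
    rcases Multiset.mem_add.1 h with h | h
    · obtain ⟨p, -, hp⟩ := Multiset.mem_map.1 h
      exact inv_ne_zero (hf0 p) hp
    · obtain ⟨p, -, hp⟩ := Multiset.mem_map.1 h
      exact inv_ne_zero (hg0 p) hp
  have hmapswap : ∀ F : A × A → ℂ, W.val.map (F ∘ Prod.swap) = W.val.map F := by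
    intro F
    conv_rhs => rw [← hWswap]
    rw [Multiset.map_map]
  have hZconj : Z.map (starRingEnd ℂ) = Z := by
    rw [hZ, Multiset.map_add, Multiset.map_map, Multiset.map_map]
    have e1 : (⇑(starRingEnd ℂ) ∘ f) = f ∘ Prod.swap := by
      ext1 p
      simp only [hf, Function.comp_apply, map_inv₀, map_sub, map_one, map_mul, hcswap]
      rw [Complex.conj_ofNat]
    have e2 : (⇑(starRingEnd ℂ) ∘ g) = g ∘ Prod.swap := by
      ext1 p
      simp only [hg, Function.comp_apply, map_inv₀, map_sub, map_one, map_mul, hcswap]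
      rw [Complex.conj_ofNat]
    rw [e1, e2, hmapswap, hmapswap]
  have hZsym : Z.map (fun ρ => 1 - ρ) = Z := by
    rw [hZ, Multiset.map_add, Multiset.map_map, Multiset.map_map]
    have e1 : ((fun ρ : ℂ => 1 - ρ) ∘ f) = g := by
      ext1 p
      exact hfg p
    have e2 : ((fun ρ : ℂ => 1 - ρ) ∘ g) = f := by
      ext1 p
      show 1 - g p = f p
      rw [← hfg p]
      ring
    rw [e1, e2, add_comm]
  have hX : ∀ n ∈ S, 0 < n → (∑ p ∈ W, c p ^ n).re ≤ 0 := by
    intro n hn hn0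
    obtain ⟨i, hi⟩ := hS n hn hn0
    have h1 := hE3 n ⟨i.succ, by rw [Fin.cons_succ]; exact hi⟩
    have h2 : ∑ p : A × A, c p ^ n = ((‖∑ k, E k ^ n‖ ^ 2 : ℝ) : ℂ) := by
      rw [Fintype.sum_prod_type]
      have e : ∀ k l : A, c (k, l) ^ n = E k ^ n * (starRingEnd ℂ) (E l ^ n) := by
        intro k l
        rw [hc]
        simp only
        rw [mul_pow, map_pow]
      simp_rw [e, ← Finset.mul_sum, ← Finset.sum_mul, ← map_sum]
      rw [Complex.mul_conj, Complex.normSq_eq_norm_sq]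
    have h3 : ∑ p ∈ Finset.univ.filter (fun p : A × A => s p.1 = s p.2), c p ^ n =
        ((Finset.univ.filter fun p : A × A => s p.1 = s p.2).card : ℂ) := by
      rw [Finset.card_eq_sum_ones]
      push_cast
      refine Finset.sum_congr rfl fun p hp => ?_
      have h4 : E p.1 = E p.2 := hE2 _ _ (Finset.mem_filter.1 hp).2
      have h5 : c p = 1 := by
        rw [hc]
        simp only
        rw [h4, Complex.mul_conj, Complex.normSq_eq_norm_sq, hE1]
        norm_num
      rw [h5, one_pow]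
    have h4 : ∑ p ∈ W, c p ^ n = ∑ p : A × A, c p ^ n -
        ∑ p ∈ Finset.univ.filter (fun p : A × A => s p.1 = s p.2), c p ^ n := by
      rw [← Finset.sum_filter_add_sum_filter_not Finset.univ (fun p : A × A => s p.1 = s p.2) (fun p => c p ^ n)]
      rw [hW]
      ring
    rw [h4, h2, h3, Complex.sub_re, Complex.ofReal_re, Complex.natCast_re]
    linarith
  have hmem : (k0, l0) ∈ W := Finset.mem_filter.2 ⟨Finset.mem_univ _, hkl⟩
  have hfin := H Z hZ0 hZconj hZsym (by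
    intro n hn hn0
    have h1 := hX n hn hn0
    have e1 : (Z.map fun ρ => 1 - (1 - 1 / ρ) ^ n).sum =
        ∑ p ∈ W, ((1 - (2 * c p) ^ n) + (1 - ((2 * c p)⁻¹) ^ n)) := by
      rw [hZ, Multiset.map_add, Multiset.sum_add, Multiset.map_map, Multiset.map_map, Finset.sum_add_distrib]
      congr 1
      · refine Finset.sum_congr rfl fun p _ => ?_
        show 1 - (1 - 1 / (1 - 2 * c p)⁻¹) ^ n = _
        rw [one_div, inv_inv]
        congr 2
        ring
      · refine Finset.sum_congr rfl fun p _ => ?_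
        show 1 - (1 - 1 / (1 - (2 * c p)⁻¹)⁻¹) ^ n = _
        rw [one_div, inv_inv]
        congr 2
        ring
    rw [e1, Complex.re_sum]
    have e2 : ∀ p ∈ W, ((1 - (2 * c p) ^ n) + (1 - ((2 * c p)⁻¹) ^ n)).re =
        2 - (2 ^ n + (2 ^ n)⁻¹) * (c p ^ n).re := by
      intro p _
      have h3 : ((2 * c p) ^ n).re = 2 ^ n * (c p ^ n).re := by
        rw [mul_pow]
        have : ((2 : ℂ) ^ n) = (((2 : ℝ) ^ n : ℝ) : ℂ) := by push_cast; rfl
        rw [this, Complex.re_ofReal_mul]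
      have h4 : (((2 * c p)⁻¹) ^ n).re = (2 ^ n)⁻¹ * (c p ^ n).re := by
        rw [mul_inv, hcinv, mul_pow, ← map_pow]
        have : ((2 : ℂ)⁻¹ ^ n) = ((((2 : ℝ) ^ n)⁻¹ : ℝ) : ℂ) := by
          push_cast
          rw [inv_pow]
        rw [this, Complex.re_ofReal_mul, Complex.conj_re]
      rw [Complex.add_re, Complex.sub_re, Complex.sub_re, h3, h4, Complex.one_re]
      ring
    rw [Finset.sum_congr rfl e2, Finset.sum_sub_distrib, ← Finset.mul_sum, ← Complex.re_sum]
    have h5 : 0 ≤ ∑ p ∈ W, (2 : ℝ) := Finset.sum_nonneg fun _ _ => by norm_num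
    have h6 : (0 : ℝ) ≤ (2 ^ n + (2 ^ n)⁻¹) := by positivity
    have h7 : (2 ^ n + (2 ^ n)⁻¹) * (∑ p ∈ W, c p ^ n).re ≤ 0 := mul_nonpos_of_nonneg_of_nonpos h6 h1
    linarith) (f (k0, l0)) (Multiset.mem_add.2 (Or.inl (Multiset.mem_map_of_mem f hmem)))
  have hne : f (k0, l0) ≠ 0 := inv_ne_zero (hf0 _)
  rw [← norm_eq_one_of_re hne] at hfin
  have e : 1 - 1 / f (k0, l0) = 2 * c (k0, l0) := by
    rw [hf]
    simp only
    rw [one_div, inv_inv]
    ring
  rw [e, h2c] at hfin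
  norm_num at hfin

end Pool.Agent.X9.Li
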