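import Pool.Agent.X9.Li.Bohr

set_option autoImplicit false

/-!
# One sided bounds for sequences with a dominant almost periodic part
-/

namespace Pool.Agent.X9.Li

open Complex Finset Filter

section
variable {ι : Type*} [Fintype ι]

lemma re_sum_ge (c : ι → ℂ) {n : ℕ} {ε : ℝ} (h : ∀ i, ‖c i ^ n - 1‖ < ε) :
    (Fintype.card ι : ℝ) * (1 - ε) ≤ (∑ i, c i ^ n).re := by
  rw [Complex.re_sum, Fintype.card, ← nsmul_eq_mul]
  refine Finset.card_nsmul_le_sum _ _ _ fun i _ => ?_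
  have h1 := (abs_le.1 (Complex.abs_re_le_norm (c i ^ n - 1))).1
  have h2 := h i
  rw [Complex.sub_re, Complex.one_re] at h1
  linarith

lemma ev_small {R q K : ℝ} (hR : 0 < R) (hq0 : 0 ≤ q) (hq : q < R) {δ : ℝ} (hδ : 0 < δ) :
    ∃ N : ℕ, ∀ n, N ≤ n → K * q ^ n < δ * R ^ n := by
  have h1 : Tendsto (fun n : ℕ => K * (q / R) ^ n) atTop (nhds (K * 0)) :=
    (tendsto_pow_atTop_nhds_zero_of_lt_one (by positivity) ((div_lt_one hR).2 hq)).const_mul K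
  rw [mul_zero] at h1
  obtain ⟨N, hN⟩ := (h1.eventually (gt_mem_nhds hδ)).exists_forall_of_atTop
  refine ⟨N, fun n hn => ?_⟩
  have h2 := hN n hn
  rw [div_pow, mul_div_assoc', div_lt_iff₀ (pow_pos hR n)] at h2
  exact h2

/-- the negative part of the sequence along a recurrent set -/
lemma neg_of_bohr [Nonempty ι] {S : Set ℕ} (hS : BohrRec S) (c : ι → ℂ) (hc : ∀ i, ‖c i‖ = 1) {R q K : ℝ}
    (hR : 0 < R) (hq0 : 0 ≤ q) (hq : q < R) (lam : ℕ → ℝ)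
    (h : ∀ n, 1 ≤ n → |lam n + R ^ n * (∑ i, c i ^ n).re| ≤ K * q ^ n) (N : ℕ) :
    ∃ n ∈ S, N ≤ n ∧ 0 < n ∧ lam n ≤ - (1 / 4) * R ^ n := by
  obtain ⟨N1, hN1⟩ := ev_small (K := K) hR hq0 hq (show (0 : ℝ) < 1 / 4 by norm_num)
  obtain ⟨n, hn, hN, hn0, h1⟩ := hS.unit c hc (show (0 : ℝ) < 1 / 2 by norm_num) (max N N1)
  refine ⟨n, hn, (le_max_left _ _).trans hN, hn0, ?_⟩
  have h2 := re_sum_ge c h1
  have h3 := (abs_le.1 (h n hn0)).2
  have h4 := hN1 n ((le_max_right _ _).trans hN)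
  have hcard : (1 : ℝ) ≤ Fintype.card ι := by exact_mod_cast Fintype.card_pos
  have h5 : (1 / 2 : ℝ) ≤ (∑ i, c i ^ n).re := by nlinarith
  have h6 : R ^ n * (1 / 2) ≤ R ^ n * (∑ i, c i ^ n).re := mul_le_mul_of_nonneg_left h5 (pow_pos hR n).le
  linarith

/-- Bohr sets are syndetic -/
lemma bohr_syndetic (c : ι → ℂ) (hc : ∀ i, ‖c i‖ = 1) {ε : ℝ} (hε : 0 < ε) :
    ∃ L : ℕ, ∀ m : ℕ, ∃ n, m ≤ n ∧ n ≤ m + L ∧ ∀ i, ‖c i ^ n - 1‖ < ε := by
  have hb : TotallyBounded (Set.range fun (n : ℕ) (i : ι) => c i ^ n) := by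
    refine TotallyBounded.subset ?_ (isCompact_closedBall (0 : ι → ℂ) 1).totallyBounded
    rintro _ ⟨n, rfl⟩
    rw [mem_closedBall_zero_iff, pi_norm_le_iff_of_nonneg zero_le_one]
    intro i
    rw [norm_pow, hc i, one_pow]
  obtain ⟨t, hts, htf, ht⟩ := totallyBounded_iff_subset.1 hb _ (Metric.dist_mem_uniformity hε)
  have hts' : ∀ y : ι → ℂ, ∃ n : ℕ, y ∈ t → (fun i => c i ^ n) = y := by
    intro y
    by_cases hy : y ∈ t
    · obtain ⟨n, hn⟩ := hts hy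
      exact ⟨n, fun _ => hn⟩
    · exact ⟨0, fun h => absurd h hy⟩
  choose g hg using hts'
  have hF : (g '' t).Finite := htf.image g
  obtain ⟨L, hL⟩ := hF.bddAbove
  refine ⟨L, fun m => ?_⟩
  have h1 := ht (Set.mem_range_self (m + L))
  simp only [Set.mem_iUnion] at h1
  obtain ⟨y, hy, h2⟩ := h1
  have hgL : g y ≤ L := hL (Set.mem_image_of_mem g hy)
  refine ⟨m + L - g y, by omega, by omega, fun i => ?_⟩
  have h3 : dist (fun i => c i ^ (m + L)) y < ε := h2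
  rw [← hg y hy, dist_pi_lt_iff hε] at h3
  have h4 := h3 i
  rw [dist_eq_norm] at h4
  have h5 : c i ^ (m + L) - c i ^ (g y) = c i ^ (g y) * (c i ^ (m + L - g y) - 1) := by
    rw [mul_sub, ← pow_add, mul_one]
    congr 2
    omega
  rw [h5, norm_mul, norm_pow, hc i, one_pow, one_mul] at h4
  exact h4

lemma exists_neg [Nonempty ι] (c : ι → ℂ) (hc : ∀ i, ‖c i‖ = 1) (hc1 : ∀ i, c i ≠ 1) :
    ∃ n : ℕ, 1 ≤ n ∧ (∑ i, c i ^ n).re < 0 := by
  by_contra hcon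
  push Not at hcon
  -- partial sums are bounded
  set B : ℝ := ∑ i, 2 / ‖c i - 1‖ with hB
  have hbd : ∀ N : ℕ, ∑ n ∈ Finset.range N, (∑ i, c i ^ n).re ≤ B := by
    intro N
    rw [← Complex.re_sum, Finset.sum_comm]
    refine (Complex.re_le_norm _).trans ((norm_sum_le _ _).trans ?_)
    refine Finset.sum_le_sum fun i _ => ?_
    rw [geom_sum_eq (hc1 i), norm_div]
    have h0 : 0 < ‖c i - 1‖ := norm_pos_iff.2 (sub_ne_zero.2 (hc1 i))
    rw [div_le_div_iff_of_pos_right h0]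
    refine (norm_sub_le _ _).trans ?_
    rw [norm_pow, hc i, one_pow, norm_one]
    norm_num
  have hnn : ∀ n : ℕ, 0 ≤ (∑ i, c i ^ n).re := by
    intro n
    rcases Nat.eq_zero_or_pos n with h | h
    · subst h
      simp
    · exact hcon n h
  have hcard : (1 : ℝ) ≤ Fintype.card ι := by exact_mod_cast Fintype.card_pos
  have hgrow : ∀ m : ℕ, ∃ N : ℕ, (m : ℝ) / 2 ≤ ∑ n ∈ Finset.range N, (∑ i, c i ^ n).re := by
    intro m
    induction m with
    | zero => exact ⟨0, by simp⟩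
    | succ m ih =>
      obtain ⟨N, hN⟩ := ih
      obtain ⟨n, _, hNn, _, h1⟩ := bohr_univ.unit c hc (show (0 : ℝ) < 1 / 2 by norm_num) N
      refine ⟨n + 1, ?_⟩
      rw [Finset.sum_range_succ]
      have h2 := re_sum_ge c h1
      have h3 : ∑ n ∈ Finset.range N, (∑ i, c i ^ n).re ≤ ∑ n ∈ Finset.range n, (∑ i, c i ^ n).re :=
        Finset.sum_le_sum_of_subset_of_nonneg (Finset.range_mono hNn) fun i _ _ => hnn i
      push_cast
      have h5 : (1 / 2 : ℝ) ≤ (∑ i, c i ^ n).re := by nlinarith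
      linarith
  obtain ⟨m, hm⟩ := exists_nat_gt (2 * B)
  obtain ⟨N, hN⟩ := hgrow m
  have := hbd N
  linarith

/-- the sequence is positive on a syndetic set -/
lemma pos_syndetic [Nonempty ι] (c : ι → ℂ) (hc : ∀ i, ‖c i‖ = 1) (hc1 : ∀ i, c i ≠ 1) {R q K : ℝ}
    (hR : 0 < R) (hq0 : 0 ≤ q) (hq : q < R) (lam : ℕ → ℝ)
    (h : ∀ n, 1 ≤ n → |lam n + R ^ n * (∑ i, c i ^ n).re| ≤ K * q ^ n) :
    ∃ c0 : ℝ, 0 < c0 ∧ ∃ L : ℕ, ∀ m : ℕ, ∃ n, m ≤ n ∧ n ≤ m + L ∧ c0 * R ^ n ≤ lam n := by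
  obtain ⟨n0, hn0, hneg⟩ := exists_neg c hc hc1
  set δ : ℝ := -(∑ i, c i ^ n0).re with hδ
  have hδ0 : 0 < δ := by linarith
  have hcard : (0 : ℝ) < Fintype.card ι := by exact_mod_cast Fintype.card_pos
  obtain ⟨L, hL⟩ := bohr_syndetic c hc (show 0 < δ / (2 * Fintype.card ι) by positivity)
  obtain ⟨N1, hN1⟩ := ev_small (K := K) hR hq0 hq (show 0 < δ / 4 by positivity)
  refine ⟨δ / 4, by positivity, L + N1 + n0, fun m => ?_⟩
  obtain ⟨k, hk1, hk2, hk3⟩ := hL (m + N1)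
  refine ⟨k + n0, by omega, by omega, ?_⟩
  have h1 : (∑ i, c i ^ (k + n0)).re ≤ -δ / 2 := by
    have e : ∑ i, c i ^ (k + n0) = ∑ i, c i ^ n0 + ∑ i, (c i ^ k - 1) * c i ^ n0 := by
      rw [← Finset.sum_add_distrib]
      refine Finset.sum_congr rfl fun i _ => ?_
      rw [pow_add]
      ring
    have h2 : ‖∑ i, (c i ^ k - 1) * c i ^ n0‖ ≤ δ / 2 := by
      refine (norm_sum_le _ _).trans ?_
      have h3 : ∀ i ∈ Finset.univ, ‖(c i ^ k - 1) * c i ^ n0‖ ≤ δ / (2 * Fintype.card ι) := by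
        intro i _
        rw [norm_mul, norm_pow, hc i, one_pow, mul_one]
        exact (hk3 i).le
      refine (Finset.sum_le_card_nsmul _ _ _ h3).trans ?_
      rw [nsmul_eq_mul, Finset.card_univ]
      apply le_of_eq
      field_simp
    have h4 := (Complex.re_le_norm (∑ i, (c i ^ k - 1) * c i ^ n0)).trans h2
    rw [e, Complex.add_re]
    linarith
  have h5 := (abs_le.1 (h (k + n0) (by omega))).1
  have h6 := hN1 (k + n0) (by omega)
  have h7 : R ^ (k + n0) * (∑ i, c i ^ (k + n0)).re ≤ R ^ (k + n0) * (-δ / 2) :=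
    mul_le_mul_of_nonneg_left h1 (pow_pos hR _).le
  nlinarith

end

end Pool.Agent.X9.Li
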