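import Mathlib

set_option autoImplicit false

/-!
# Sets of Bohr recurrence
-/

namespace Pool.Agent.X9.Li

open Complex Finset

/-- `S` meets every Bohr neighbourhood of zero in a positive integer. -/
def BohrRec (S : Set ℕ) : Prop :=
  ∀ (d : ℕ) (θ : Fin d → ℝ) (ε : ℝ), 0 < ε →
    ∃ n ∈ S, 0 < n ∧ ∀ i, |(n : ℝ) * θ i - round ((n : ℝ) * θ i)| < ε

/-- the distance to the nearest integer -/
noncomputable def nrm (x : ℝ) : ℝ := |x - round x|

lemma nrm_le (x : ℝ) (m : ℤ) : nrm x ≤ |x - m| := round_le x m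

lemma nrm_nonneg (x : ℝ) : 0 ≤ nrm x := abs_nonneg _

lemma nrm_add (x y : ℝ) : nrm (x + y) ≤ nrm x + nrm y := by
  have h := nrm_le (x + y) (round x + round y)
  push_cast at h
  have h2 : x + y - ((round x : ℝ) + round y) = (x - round x) + (y - round y) := by ring
  rw [h2] at h
  exact h.trans (abs_add_le _ _)

lemma nrm_int (m : ℤ) : nrm (m : ℝ) = 0 := by
  have := nrm_le (m : ℝ) m
  rw [sub_self, abs_zero] at this
  exact le_antisymm this (nrm_nonneg _)

lemma nrm_neg (x : ℝ) : nrm (-x) = nrm x := by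
  apply le_antisymm
  · have h := nrm_le (-x) (-round x)
    push_cast at h
    rwa [show -x - -(round x : ℝ) = -(x - round x) by ring, abs_neg] at h
  · have h := nrm_le x (-round (-x))
    push_cast at h
    rwa [show x - -(round (-x) : ℝ) = -(-x - round (-x)) by ring, abs_neg] at h

lemma nrm_mul_int (m : ℤ) (x : ℝ) : nrm (m * x) ≤ |(m : ℝ)| * nrm x := by
  have h := nrm_le (m * x) (m * round x)
  push_cast at h
  rwa [← mul_sub, abs_mul] at h

lemma nrm_sum {ι : Type*} (s : Finset ι) (f : ι → ℝ) : nrm (∑ i ∈ s, f i) ≤ ∑ i ∈ s, nrm (f i) := by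
  classical
  induction s using Finset.induction_on with
  | empty =>
    simp only [Finset.sum_empty]
    have := nrm_int 0
    simp only [Int.cast_zero] at this
    exact this.le
  | insert a s ha ih =>
    rw [Finset.sum_insert ha, Finset.sum_insert ha]
    exact (nrm_add _ _).trans (by linarith)

lemma nrm_pos {x : ℝ} (h : Irrational x) : 0 < nrm x := by
  rcases (nrm_nonneg x).lt_or_eq with h1 | h1
  · exact h1
  · exfalso
    have h2 : x - round x = 0 := abs_eq_zero.1 h1.symm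
    exact h ⟨(round x : ℚ), by push_cast; linarith⟩

/-- A Bohr neighbourhood meets a recurrent set in arbitrarily large integers. -/
lemma BohrRec.large {S : Set ℕ} (hS : BohrRec S) {d : ℕ} (θ : Fin d → ℝ) {ε : ℝ} (hε : 0 < ε) (N : ℕ) :
    ∃ n ∈ S, N ≤ n ∧ 0 < n ∧ ∀ i, |(n : ℝ) * θ i - round ((n : ℝ) * θ i)| < ε := by
  obtain ⟨δ, hδ, hδ2⟩ : ∃ δ : ℝ, 0 < δ ∧ ∀ n ∈ Finset.Ico 1 N, δ ≤ nrm ((n : ℝ) * √2) := by
    rcases (Finset.Ico 1 N).eq_empty_or_nonempty with h0 | h0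
    · exact ⟨1, one_pos, by simp [h0]⟩
    · obtain ⟨m, hm, hm2⟩ := Finset.exists_min_image (Finset.Ico 1 N) (fun n : ℕ => nrm ((n : ℝ) * √2)) h0
      refine ⟨nrm ((m : ℝ) * √2), ?_, hm2⟩
      apply nrm_pos
      have hm1 : m ≠ 0 := by
        have := (Finset.mem_Ico.1 hm).1
        omega
      exact irrational_sqrt_two.natCast_mul hm1
  obtain ⟨n, hn, hn0, h⟩ := hS (d + 1) (Fin.cons (√2) θ) (min ε δ) (lt_min hε hδ)
  refine ⟨n, hn, ?_, hn0, fun i => ?_⟩
  · by_contra hlt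
    have h1 := hδ2 n (Finset.mem_Ico.2 ⟨hn0, by omega⟩)
    have h2 := h 0
    rw [Fin.cons_zero] at h2
    have h3 : nrm ((n : ℝ) * √2) < δ := lt_of_lt_of_le h2 (min_le_right _ _)
    linarith
  · have h2 := h i.succ
    rw [Fin.cons_succ] at h2
    exact lt_of_lt_of_le h2 (min_le_left _ _)

lemma exp_sub_one_le (x : ℝ) : ‖cexp (2 * Real.pi * I * x) - 1‖ ≤ 2 * Real.pi * nrm x := by
  have h1 : cexp (2 * Real.pi * I * x) = cexp (I * ((2 * Real.pi * (x - round x) : ℝ) : ℂ)) := by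
    rw [Complex.exp_eq_exp_iff_exists_int]
    refine ⟨round x, ?_⟩
    push_cast
    ring
  rw [h1]
  refine (Real.norm_exp_I_mul_ofReal_sub_one_le).trans ?_
  rw [Real.norm_eq_abs, abs_mul, abs_of_pos Real.two_pi_pos]
  rfl

/-- the same in terms of complex numbers of modulus one -/
lemma BohrRec.unit {S : Set ℕ} (hS : BohrRec S) {ι : Type*} [Fintype ι] (c : ι → ℂ) (hc : ∀ i, ‖c i‖ = 1)
    {ε : ℝ} (hε : 0 < ε) (N : ℕ) : ∃ n ∈ S, N ≤ n ∧ 0 < n ∧ ∀ i, ‖c i ^ n - 1‖ < ε := by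
  classical
  have hθ : ∀ i, ∃ t : ℝ, c i = cexp (2 * Real.pi * I * t) := by
    intro i
    refine ⟨(c i).arg / (2 * Real.pi), ?_⟩
    have h1 := Complex.norm_mul_exp_arg_mul_I (c i)
    rw [hc i] at h1
    rw [← h1, ofReal_one, one_mul]
    congr 1
    have : (Complex.arg (cexp (((c i).arg : ℂ) * I))) = (c i).arg := by
      rw [Complex.arg_exp_mul_I, toIocMod_eq_self]
      exact ⟨Complex.neg_pi_lt_arg _, by
        have := Complex.arg_le_pi (c i)
        linarith⟩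
    rw [this]
    push_cast
    have hp : (Real.pi : ℂ) ≠ 0 := by exact_mod_cast Real.pi_ne_zero
    field_simp
  choose t ht using hθ
  let e := (Fintype.equivFin ι)
  obtain ⟨n, hn, hN, hn0, h⟩ := hS.large (fun j => t (e.symm j)) (show 0 < ε / (2 * Real.pi) by positivity) N
  refine ⟨n, hn, hN, hn0, fun i => ?_⟩
  have h1 := h (e i)
  simp only [Equiv.symm_apply_apply] at h1
  have h2 : c i ^ n = cexp (2 * Real.pi * I * ((n * t i : ℝ) : ℂ)) := by
    rw [ht i, ← Complex.exp_nat_mul]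
    congr 1
    push_cast
    ring
  rw [h2]
  refine (exp_sub_one_le _).trans_lt ?_
  have h3 : nrm (n * t i) < ε / (2 * Real.pi) := h1
  calc 2 * Real.pi * nrm (n * t i) < 2 * Real.pi * (ε / (2 * Real.pi)) :=
        mul_lt_mul_of_pos_left h3 Real.two_pi_pos
    _ = ε := by field_simp

/-! ## Examples -/

/-- the cell of `x` modulo one in a partition into `K` intervals -/
noncomputable def cell (K : ℕ) (x : ℝ) : ℕ := ⌊(K : ℝ) * Int.fract x⌋₊

lemma cell_lt {K : ℕ} (hK : 0 < K) (x : ℝ) : cell K x < K := by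
  unfold cell
  rw [Nat.floor_lt (by positivity)]
  have := Int.fract_lt_one x
  have hK' : (0 : ℝ) < K := by exact_mod_cast hK
  nlinarith

lemma nrm_of_cell {K : ℕ} (hK : 0 < K) {x y : ℝ} (h : cell K x = cell K y) : nrm (x - y) ≤ 1 / K := by
  have hK' : (0 : ℝ) < K := by exact_mod_cast hK
  have h1 := nrm_le (x - y) (⌊x⌋ - ⌊y⌋)
  have h2 : x - y - ((⌊x⌋ - ⌊y⌋ : ℤ) : ℝ) = Int.fract x - Int.fract y := by
    push_cast
    rw [← Int.self_sub_floor, ← Int.self_sub_floor]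
    ring
  rw [h2] at h1
  refine h1.trans ?_
  unfold cell at h
  have hx := Nat.floor_le (show 0 ≤ (K : ℝ) * Int.fract x by positivity)
  have hx' := Nat.lt_floor_add_one ((K : ℝ) * Int.fract x)
  have hy := Nat.floor_le (show 0 ≤ (K : ℝ) * Int.fract y by positivity)
  have hy' := Nat.lt_floor_add_one ((K : ℝ) * Int.fract y)
  rw [h] at hx hx'
  rw [le_div_iff₀ hK', ← abs_of_pos hK', ← abs_mul, abs_le]
  constructor <;> nlinarith

lemma bohr_diff {D : Set ℕ} (hD : D.Infinite) : BohrRec {n | ∃ a ∈ D, ∃ b ∈ D, b < a ∧ n = a - b} := by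
  intro d θ ε hε
  obtain ⟨K, hK⟩ := exists_nat_gt (1 / ε)
  have hK0' : (0 : ℝ) < K := lt_trans (by positivity) hK
  have hK0 : 0 < K := by exact_mod_cast hK0'
  have hKε : 1 / (K : ℝ) < ε := by
    rw [div_lt_iff₀ hK0']
    rw [div_lt_iff₀ hε] at hK
    linarith
  let C : ℕ → (Fin d → Fin K) := fun n i => ⟨cell K ((n : ℝ) * θ i), cell_lt hK0 _⟩
  obtain ⟨a, ha, b, hb, hab, hC⟩ := hD.exists_ne_map_eq_of_mapsTo (f := C) (t := Set.univ)
    (fun _ _ => Set.mem_univ _) Set.finite_univ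
  have key : ∀ a b : ℕ, b < a → C a = C b → ∀ i, nrm (((a - b : ℕ) : ℝ) * θ i) < ε := by
    intro a b hab hC i
    have h1 : cell K ((a : ℝ) * θ i) = cell K ((b : ℝ) * θ i) := by
      have := congrFun hC i
      simpa [C] using this
    have h2 := nrm_of_cell hK0 h1
    rw [Nat.cast_sub hab.le, sub_mul]
    exact h2.trans_lt hKε
  rcases lt_or_gt_of_ne hab with h | h
  · exact ⟨b - a, ⟨b, hb, a, ha, h, rfl⟩, by omega, key b a h hC.symm⟩
  · exact ⟨a - b, ⟨a, ha, b, hb, h, rfl⟩, by omega, key a b h hC⟩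

lemma bohr_mono {S T : Set ℕ} (h : S ⊆ T) (hS : BohrRec S) : BohrRec T := by
  intro d θ ε hε
  obtain ⟨n, hn, h1⟩ := hS d θ ε hε
  exact ⟨n, h hn, h1⟩

lemma bohr_univ : BohrRec Set.univ := bohr_mono (Set.subset_univ _) (bohr_diff Set.infinite_univ)

open Nat in
lemma bohr_pow {k : ℕ} (hk : 1 ≤ k) : BohrRec {n | ∃ a : ℕ, n = a ^ k} := by
  intro d θ ε hε
  obtain ⟨K, hK⟩ := exists_nat_gt (2 ^ k * (k + 1) / ε : ℝ)
  have hK0' : (0 : ℝ) < K := lt_trans (by positivity) hK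
  have hK0 : 0 < K := by exact_mod_cast hK0'
  let C : ℕ → (Fin d → Fin K) := fun n i => ⟨cell K ((n : ℝ) ^ k * (θ i / k !)), cell_lt hK0 _⟩
  obtain ⟨a, ha, b, c, hC⟩ := Combinatorics.exists_mono_homothetic_copy (Finset.range (k + 1)) C
  refine ⟨a ^ k, ⟨a, rfl⟩, Nat.pow_pos ha, fun i => ?_⟩
  have hfac : (k ! : ℝ) ≠ 0 := by exact_mod_cast k.factorial_ne_zero
  -- the polynomial identity
  have hid : ((a ^ k : ℕ) : ℝ) * θ i = ∑ s ∈ Finset.range (k + 1), (((-1 : ℤ) ^ (k - s) * k.choose s : ℤ) : ℝ) *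
      (((a • s + b : ℕ) : ℝ) ^ k * (θ i / k !)) := by
    have h1 := congrFun (fwdDiff_iter_eq_factorial (R := ℝ) (n := k)) ((b : ℝ) / a)
    rw [fwdDiff_iter_eq_sum_shift] at h1
    have ha' : (a : ℝ) ≠ 0 := by exact_mod_cast ha.ne'
    have h2 : (∑ s ∈ Finset.range (k + 1), (((-1 : ℤ) ^ (k - s) * k.choose s : ℤ) : ℝ) *
        ((b : ℝ) / a + s) ^ k) = (k ! : ℝ) := by
      have h3 : ((k ! : ℝ → ℝ) ((b : ℝ) / a)) = (k ! : ℝ) := by simp
      rw [h3] at h1
      rw [← h1]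
      refine Finset.sum_congr rfl fun s _ => ?_
      rw [zsmul_eq_mul, nsmul_eq_mul, mul_one]
    have h4 : ∀ s : ℕ, ((a • s + b : ℕ) : ℝ) ^ k = (a : ℝ) ^ k * ((b : ℝ) / a + s) ^ k := by
      intro s
      rw [← mul_pow]
      congr 1
      push_cast [smul_eq_mul]
      field_simp
      ring
    have h5 : ∀ s ∈ Finset.range (k + 1), (((-1 : ℤ) ^ (k - s) * k.choose s : ℤ) : ℝ) *
      (((a • s + b : ℕ) : ℝ) ^ k * (θ i / k !)) = (a : ℝ) ^ k * (θ i / k !) *
        ((((-1 : ℤ) ^ (k - s) * k.choose s : ℤ) : ℝ) * ((b : ℝ) / a + s) ^ k) := by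
      intro s _
      rw [h4 s]
      ring
    rw [Finset.sum_congr rfl h5, ← Finset.mul_sum, h2]
    push_cast
    field_simp
  have hzero : ∑ s ∈ Finset.range (k + 1), (((-1 : ℤ) ^ (k - s) * k.choose s : ℤ) : ℝ) = 0 := by
    have h1 := congrFun (fwdDiff_iter_pow_eq_zero_of_lt (R := ℝ) (j := 0) (n := k) (by omega)) 0
    rw [fwdDiff_iter_eq_sum_shift] at h1
    simpa using h1
  have hid2 : ((a ^ k : ℕ) : ℝ) * θ i = ∑ s ∈ Finset.range (k + 1), (((-1 : ℤ) ^ (k - s) * k.choose s : ℤ) : ℝ) *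
      ((((a • s + b : ℕ) : ℝ) ^ k * (θ i / k !)) - (((a • 0 + b : ℕ) : ℝ) ^ k * (θ i / k !))) := by
    simp_rw [mul_sub]
    rw [Finset.sum_sub_distrib, ← Finset.sum_mul, hzero, zero_mul, sub_zero]
    exact hid
  have hb : ∀ s ∈ Finset.range (k + 1), nrm ((((-1 : ℤ) ^ (k - s) * k.choose s : ℤ) : ℝ) *
      ((((a • s + b : ℕ) : ℝ) ^ k * (θ i / k !)) - (((a • 0 + b : ℕ) : ℝ) ^ k * (θ i / k !)))) ≤ 2 ^ k * (1 / K) := by
    intro s hs
    refine (nrm_mul_int _ _).trans ?_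
    have h1 : C (a • s + b) = C (a • 0 + b) := (hC s hs).trans (hC 0 (by simp)).symm
    have h2 : cell K (((a • s + b : ℕ) : ℝ) ^ k * (θ i / k !)) = cell K (((a • 0 + b : ℕ) : ℝ) ^ k * (θ i / k !)) := by
      have := congrFun h1 i
      simpa [C] using this
    have h3 := nrm_of_cell hK0 h2
    have h4 : |(((-1 : ℤ) ^ (k - s) * k.choose s : ℤ) : ℝ)| ≤ 2 ^ k := by
      push_cast
      rw [abs_mul, abs_pow, abs_neg, abs_one, one_pow, one_mul, Nat.abs_cast]
      exact_mod_cast Nat.choose_le_two_pow k s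
    exact mul_le_mul h4 h3 (nrm_nonneg _) (by positivity)
  have hfin : nrm (((a ^ k : ℕ) : ℝ) * θ i) < ε := by
    rw [hid2]
    refine (nrm_sum _ _).trans_lt ((Finset.sum_le_sum hb).trans_lt ?_)
    rw [Finset.sum_const, Finset.card_range, nsmul_eq_mul]
    push_cast
    rw [div_lt_iff₀ hε] at hK
    have : ((k : ℝ) + 1) * (2 ^ k * (1 / K)) = (2 ^ k * (k + 1)) / K := by field_simp
    rw [this, div_lt_iff₀ hK0']
    linarith
  exact hfin

end Pool.Agent.X9.Li
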