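import Pool.Agent.X9.Li.Asym

set_option autoImplicit false

/-!
# Taylor coefficients of the logarithmic derivative of a function with zeros in a disc
-/

namespace Pool.Agent.X9.Li

open Complex Finset Filter Metric Topology

/-- extraction of the zeros in a disc -/
lemma factor {φ : ℂ → ℂ} {r : ℝ} (hr : 0 < r) (hA : AnalyticOnNhd ℂ φ (closedBall 0 r)) (h0 : φ 0 ≠ 0) :
    ∃ (s : Finset ℂ) (m : ℂ → ℕ) (g : ℂ → ℂ),
      (∀ u ∈ s, u ∈ closedBall (0 : ℂ) r ∧ φ u = 0 ∧ 1 ≤ m u) ∧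
      (∀ u ∈ closedBall (0 : ℂ) r, φ u = 0 → u ∈ s) ∧
      AnalyticOnNhd ℂ g (closedBall 0 r) ∧ (∀ u ∈ closedBall (0 : ℂ) r, g u ≠ 0) ∧
      φ =ᶠ[𝓝 0] fun w => (∏ u ∈ s, (w - u) ^ (m u)) * g w := by
  classical
  set U : Set ℂ := closedBall 0 r with hU
  have hm : MeromorphicOn φ U := hA.meromorphicOn
  have h0U : (0 : ℂ) ∈ U := by simp [hU, hr.le]
  have hpre : IsPreconnected U := (convex_closedBall (0 : ℂ) r).isPreconnected
  have hord0 : meromorphicOrderAt φ 0 ≠ ⊤ := by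
    rw [(hA 0 h0U).meromorphicOrderAt_eq, (hA 0 h0U).analyticOrderAt_eq_zero.2 h0]
    simp
  have hord : ∀ u : U, meromorphicOrderAt φ u ≠ ⊤ := fun u =>
    hm.meromorphicOrderAt_ne_top_of_isPreconnected hpre h0U u.2 hord0
  have haord : ∀ u ∈ U, analyticOrderAt φ u ≠ ⊤ := by
    intro u hu h
    apply hord ⟨u, hu⟩
    rw [(hA u hu).meromorphicOrderAt_eq, h]
    rfl
  set D := MeromorphicOn.divisor φ U with hD
  have hfin : D.support.Finite := D.finiteSupport (isCompact_closedBall _ _)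
  obtain ⟨g, hg, hg0, hfg⟩ := hm.extract_zeros_poles hord hfin
  have hDnn : ∀ u, 0 ≤ D u := fun u => (MeromorphicOn.AnalyticOnNhd.divisor_nonneg hA) u
  have hDU : ∀ u ∈ U, D u = (analyticOrderAt φ u).toNat := by
    intro u hu
    rw [hD, MeromorphicOn.AnalyticOnNhd.divisor_apply hA hu]
    obtain ⟨n, hn⟩ := ENat.ne_top_iff_exists.1 (haord u hu)
    rw [← hn]
    rfl
  refine ⟨hfin.toFinset, fun u => (D u).toNat, g, ?_, ?_, hg, fun u hu => hg0 ⟨u, hu⟩, ?_⟩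
  · intro u hu
    rw [Set.Finite.mem_toFinset, Function.mem_support] at hu
    have huU : u ∈ U := by
      by_contra h
      exact hu (D.apply_eq_zero_of_notMem h)
    refine ⟨huU, ?_, ?_⟩
    · by_contra h
      apply hu
      rw [hDU u huU, (hA u huU).analyticOrderAt_eq_zero.2 h]
      rfl
    · have h1 := hDnn u
      have h2 : D u ≠ 0 := hu
      show 1 ≤ (D u).toNat
      omega
  · intro u hu hz
    rw [Set.Finite.mem_toFinset, Function.mem_support, hDU u hu]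
    intro h
    have h1 : analyticOrderAt φ u = 0 := by
      obtain ⟨n, hn⟩ := ENat.ne_top_iff_exists.1 (haord u hu)
      rw [← hn] at h ⊢
      simp at h
      simp [h]
    exact (hA u hu).analyticOrderAt_eq_zero.1 h1 hz
  · have hprod : (∏ᶠ u, (· - u) ^ D u) = fun x => ∏ u ∈ hfin.toFinset, (x - u) ^ (D u).toNat := by
      rw [Function.FactorizedRational.finprod_eq_fun hfin]
      ext x
      rw [finprod_eq_prod_of_mulSupport_subset (s := hfin.toFinset)]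
      · refine Finset.prod_congr rfl fun u _ => ?_
        conv_lhs => rw [← Int.toNat_of_nonneg (hDnn u)]
        rw [zpow_natCast]
      · intro u hu
        rw [Set.Finite.coe_toFinset, Function.mem_support]
        intro h
        apply hu
        simp [h]
    rw [hprod] at hfg
    -- both sides are analytic at zero and agree frequently
    have han1 : AnalyticAt ℂ φ 0 := hA 0 h0U
    have han2 : AnalyticAt ℂ (fun w => (∏ u ∈ hfin.toFinset, (w - u) ^ (D u).toNat) * g w) 0 := by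
      refine AnalyticAt.mul ?_ (hg 0 h0U)
      refine Finset.analyticAt_fun_prod _ fun u _ => ?_
      exact (analyticAt_id.sub analyticAt_const).pow _
    refine (han1.frequently_eq_iff_eventually_eq han2).1 ?_
    have hn : U ∈ 𝓝 (0 : ℂ) := closedBall_mem_nhds _ hr
    have h1 : ∀ᶠ w in 𝓝[≠] (0 : ℂ), φ w = (∏ u ∈ hfin.toFinset, (w - u) ^ (D u).toNat) * g w := by
      have h2 : {w | φ w = ((fun x => ∏ u ∈ hfin.toFinset, (x - u) ^ (D u).toNat) • g) w} ∈ codiscreteWithin U := hfg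
      rw [mem_codiscreteWithin] at h2
      have h3 := h2 0 h0U
      rw [disjoint_principal_right] at h3
      have h4 : U ∈ 𝓝[≠] (0 : ℂ) := mem_nhdsWithin_of_mem_nhds hn
      filter_upwards [h3, h4] with w hw hwU
      by_contra hne
      apply hw
      exact ⟨hwU, fun h => hne h⟩
    exact h1.frequently

lemma coef_inv (u : ℂ) (hu : u ≠ 0) (k : ℕ) :
    iteratedDeriv k (fun w => (w - u)⁻¹) 0 = -(k.factorial : ℂ) * (u⁻¹) ^ (k + 1) := by
  have h := congrFun (iter_deriv_inv_linear_sub k (1 : ℂ) u) 0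
  simp only [one_mul] at h
  rw [iteratedDeriv_eq_iterate, h, zero_sub, one_pow, mul_one]
  have h1 : (-u) ^ (-1 - (k : ℤ)) = (-1) ^ (k + 1) * (u⁻¹) ^ (k + 1) := by
    have h2 : (-1 - (k : ℤ)) = -((k + 1 : ℕ) : ℤ) := by
      push_cast
      ring
    rw [h2, zpow_neg, zpow_natCast, neg_pow, mul_inv, inv_pow]
    congr 1
    rw [← inv_pow]
    norm_num
  rw [h1]
  have h3 : ((-1 : ℂ)) ^ k * (-1) ^ (k + 1) = -1 := by
    rw [← pow_add]
    exact Odd.neg_one_pow ⟨k, by ring⟩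
  calc (-1 : ℂ) ^ k * k.factorial * ((-1) ^ (k + 1) * u⁻¹ ^ (k + 1))
      = ((-1 : ℂ) ^ k * (-1) ^ (k + 1)) * (k.factorial * u⁻¹ ^ (k + 1)) := by ring
    _ = -(k.factorial : ℂ) * (u⁻¹) ^ (k + 1) := by rw [h3]; ring

/-- the number `n` times the `n`-th Taylor coefficient of `log φ` at zero -/
noncomputable def lam (φ : ℂ → ℂ) (n : ℕ) : ℂ := iteratedDeriv (n - 1) (logDeriv φ) 0 / (n - 1).factorial

lemma asym {φ : ℂ → ℂ} (hφ : DifferentiableOn ℂ φ (ball 0 1)) (h0 : φ 0 ≠ 0)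
    (hz : ∃ z ∈ ball (0 : ℂ) 1, φ z = 0) :
    ∃ (ι : Type) (_ : Fintype ι) (_ : Nonempty ι) (c : ι → ℂ) (R q K : ℝ), 1 < R ∧ 0 ≤ q ∧ q < R ∧
      (∀ i, ‖c i‖ = 1 ∧ φ ((R * c i)⁻¹) = 0) ∧
      ∀ n : ℕ, 1 ≤ n → ‖lam φ n + R ^ n * ∑ i, c i ^ n‖ ≤ K * q ^ n := by
  classical
  obtain ⟨z0, hz0, hφz⟩ := hz
  rw [mem_ball_zero_iff] at hz0
  have hz0ne : z0 ≠ 0 := fun h => h0 (h ▸ hφz)
  have hz0n : 0 < ‖z0‖ := norm_pos_iff.2 hz0ne
  set r : ℝ := (1 + ‖z0‖) / 2 with hr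
  have hr0 : 0 < r := by positivity
  have hr1 : r < 1 := by rw [hr]; linarith
  have hzr : ‖z0‖ < r := by rw [hr]; linarith
  have hA : AnalyticOnNhd ℂ φ (closedBall 0 r) := by
    intro w hw
    have hw' : w ∈ ball (0 : ℂ) 1 := closedBall_subset_ball hr1 hw
    exact hφ.analyticAt (isOpen_ball.mem_nhds hw')
  obtain ⟨s, m, g, hs, hs2, hg, hg0, hφg⟩ := factor hr0 hA h0
  have hz0s : z0 ∈ s := hs2 z0 (mem_closedBall_zero_iff.2 hzr.le) hφz
  have hune : ∀ u ∈ s, u ≠ 0 := fun u hu h => h0 (h ▸ (hs u hu).2.1)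
  obtain ⟨u1, hu1, hmax⟩ := s.exists_max_image (fun u => ‖u‖⁻¹) ⟨z0, hz0s⟩
  set R : ℝ := ‖u1‖⁻¹ with hR
  have hRr : r⁻¹ < R := by
    refine lt_of_lt_of_le ?_ (hmax z0 hz0s)
    exact inv_strictAnti₀ hz0n hzr
  have hR1 : 1 < R := lt_trans (one_lt_inv_iff₀.2 ⟨hr0, hr1⟩) hRr
  have hR0 : (R : ℂ) ≠ 0 := by
    have : R ≠ 0 := by linarith
    exact_mod_cast this
  -- the second largest
  obtain ⟨q1, hq10, hq1R, hq1⟩ : ∃ q1 : ℝ, 0 ≤ q1 ∧ q1 < R ∧ ∀ u ∈ s, ‖u‖⁻¹ ≠ R → ‖u‖⁻¹ ≤ q1 := by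
    rcases (s.filter fun u => ‖u‖⁻¹ ≠ R).eq_empty_or_nonempty with he | he
    · refine ⟨0, le_rfl, by linarith, fun u hu h => ?_⟩
      exfalso
      have : u ∈ s.filter fun u => ‖u‖⁻¹ ≠ R := Finset.mem_filter.2 ⟨hu, h⟩
      rw [he] at this
      simp at this
    · obtain ⟨u2, hu2, hm2⟩ := Finset.exists_max_image _ (fun u => ‖u‖⁻¹) he
      rw [Finset.mem_filter] at hu2
      exact ⟨‖u2‖⁻¹, by positivity, lt_of_le_of_ne (hmax u2 hu2.1) hu2.2, fun u hu h =>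
        hm2 u (Finset.mem_filter.2 ⟨hu, h⟩)⟩
  -- the bound for g
  have hgd : ∀ u ∈ closedBall (0 : ℂ) r, AnalyticAt ℂ (logDeriv g) u := by
    intro u hu
    exact (hg u hu).deriv.div (hg u hu) (hg0 u hu)
  obtain ⟨M, hM⟩ : ∃ M : ℝ, ∀ z ∈ sphere (0 : ℂ) r, ‖logDeriv g z‖ ≤ M := by
    have hc : ContinuousOn (logDeriv g) (sphere (0 : ℂ) r) := fun u hu =>
      (hgd u (sphere_subset_closedBall hu)).continuousAt.continuousWithinAt
    exact (isCompact_sphere (0 : ℂ) r).exists_bound_of_continuousOn hc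
  have hM0 : 0 ≤ M := (norm_nonneg _).trans (hM (r : ℂ) (by simp [abs_of_pos hr0]))
  have hdcc : DiffContOnCl ℂ (logDeriv g) (ball 0 r) := by
    refine ⟨fun u hu => (hgd u (ball_subset_closedBall hu)).differentiableAt.differentiableWithinAt, ?_⟩
    rw [closure_ball _ hr0.ne']
    exact fun u hu => (hgd u hu).continuousAt.continuousWithinAt
  have hcauchy : ∀ k : ℕ, ‖iteratedDeriv k (logDeriv g) 0 / k.factorial‖ ≤ M / r ^ k := by
    intro k
    have h1 := norm_iteratedDeriv_le_of_forall_mem_sphere_norm_le k hr0 hdcc hM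
    have hk : (0 : ℝ) < k.factorial := by exact_mod_cast k.factorial_pos
    rw [norm_div, Complex.norm_natCast, div_le_iff₀ hk]
    calc _ ≤ _ := h1
      _ = M / r ^ k * k.factorial := by ring
  -- the logarithmic derivative
  have hlog : logDeriv φ =ᶠ[𝓝 0] fun w => (∑ u ∈ s, (m u : ℂ) * (w - u)⁻¹) + logDeriv g w := by
    have hne : ∀ᶠ w in 𝓝 (0 : ℂ), ∀ u ∈ s, w - u ≠ 0 := by
      rw [Filter.eventually_all_finset]
      intro u hu
      have : ContinuousAt (fun w : ℂ => w - u) 0 := by fun_prop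
      refine this.eventually_ne ?_
      rw [zero_sub]
      exact neg_ne_zero.2 (hune u hu)
    have hgn : ∀ᶠ w in 𝓝 (0 : ℂ), w ∈ closedBall (0 : ℂ) r := closedBall_mem_nhds _ hr0
    filter_upwards [hφg.eventuallyEq_nhds, hne, hgn] with w hw hwne hwr
    have h1 : logDeriv φ w = logDeriv (fun w => (∏ u ∈ s, (w - u) ^ (m u)) * g w) w := by
      simp only [logDeriv_apply]
      rw [hw.deriv_eq, hw.eq_of_nhds]
    rw [h1, logDeriv_mul]
    · congr 1
      rw [logDeriv_prod]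
      · refine Finset.sum_congr rfl fun u hu => ?_
        have h2 : logDeriv (fun w : ℂ => (w - u) ^ (m u)) w = (m u : ℂ) * logDeriv (fun w : ℂ => w - u) w := by
          have := logDeriv_fun_zpow (f := fun w : ℂ => w - u) (x := w) (by fun_prop) (m u : ℤ)
          simpa only [zpow_natCast, Int.cast_natCast] using this
        rw [h2, logDeriv_apply]
        congr 1
        rw [deriv_sub_const, deriv_id'', one_div]
      · intro u hu
        exact pow_ne_zero _ (hwne u hu)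
      · intro u hu
        fun_prop
    · exact Finset.prod_ne_zero_iff.2 fun u hu => pow_ne_zero _ (hwne u hu)
    · exact hg0 w hwr
    · fun_prop
    · exact (hg w hwr).differentiableAt
  have hlam : ∀ k : ℕ, iteratedDeriv k (logDeriv φ) 0 / k.factorial =
      - (∑ u ∈ s, (m u : ℂ) * (u⁻¹) ^ (k + 1)) + iteratedDeriv k (logDeriv g) 0 / k.factorial := by
    intro k
    rw [hlog.iteratedDeriv_eq]
    have hcd : ∀ u ∈ s, ContDiffAt ℂ k (fun w : ℂ => (m u : ℂ) * (w - u)⁻¹) 0 := by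
      intro u hu
      refine contDiffAt_const.mul (ContDiffAt.inv (by fun_prop) ?_)
      rw [zero_sub]
      exact neg_ne_zero.2 (hune u hu)
    have h1 : iteratedDeriv k (fun w => (∑ u ∈ s, (m u : ℂ) * (w - u)⁻¹) + logDeriv g w) 0 =
        (∑ u ∈ s, (m u : ℂ) * (-(k.factorial : ℂ) * (u⁻¹) ^ (k + 1))) + iteratedDeriv k (logDeriv g) 0 := by
      rw [iteratedDeriv_fun_add (ContDiffAt.sum hcd) (hgd 0 (by simp [hr0.le])).contDiffAt]
      congr 1
      rw [iteratedDeriv_fun_sum hcd]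
      refine Finset.sum_congr rfl fun u hu => ?_
      rw [iteratedDeriv_const_mul_field, coef_inv u (hune u hu)]
    rw [h1, add_div]
    congr 1
    have hk : (k.factorial : ℂ) ≠ 0 := by exact_mod_cast k.factorial_ne_zero
    rw [Finset.sum_div, ← Finset.sum_neg_distrib]
    refine Finset.sum_congr rfl fun u _ => ?_
    field_simp
  -- the index type
  let s0 := s.filter fun u => ‖u‖⁻¹ = R
  let ι := Σ u : {u // u ∈ s0}, Fin (m u)
  have hsum : ∀ n : ℕ, (R : ℂ) ^ n * ∑ i : ι, ((i.1 : ℂ)⁻¹ / R) ^ n = ∑ u ∈ s0, (m u : ℂ) * (u⁻¹) ^ n := by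
    intro n
    rw [Fintype.sum_sigma]
    simp only [Finset.sum_const, Finset.card_univ, Fintype.card_fin, nsmul_eq_mul]
    rw [← Finset.sum_coe_sort s0, Finset.mul_sum]
    refine Finset.sum_congr rfl fun u _ => ?_
    rw [div_pow]
    field_simp
  have hu1s : u1 ∈ s0 := Finset.mem_filter.2 ⟨hu1, rfl⟩
  refine ⟨ι, inferInstance, ⟨⟨⟨u1, hu1s⟩, ⟨0, (hs u1 hu1).2.2⟩⟩⟩, fun i => (i.1 : ℂ)⁻¹ / R, R, max q1 r⁻¹,
    (∑ u ∈ s, (m u : ℝ)) + M * r, hR1, le_max_of_le_left hq10, max_lt hq1R hRr, ?_, ?_⟩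
  · rintro ⟨⟨u, hu⟩, j⟩
    have hu' := Finset.mem_filter.1 hu
    refine ⟨?_, ?_⟩
    · simp only [norm_div, norm_inv, hu'.2, Complex.norm_real, Real.norm_eq_abs, abs_of_pos (lt_trans one_pos hR1)]
      exact div_self (by linarith)
    · have : ((R : ℂ) * (u⁻¹ / R))⁻¹ = u := by
        rw [mul_div_cancel₀ _ hR0, inv_inv]
      show φ (((R : ℂ) * (u⁻¹ / R))⁻¹) = 0
      rw [this]
      exact (hs u hu'.1).2.1
  · intro n hn
    obtain ⟨k, rfl⟩ : ∃ k, n = k + 1 := ⟨n - 1, by omega⟩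
    unfold lam
    rw [Nat.add_sub_cancel, hlam k, hsum (k + 1)]
    have hsplit : ∑ u ∈ s, (m u : ℂ) * (u⁻¹) ^ (k + 1) = ∑ u ∈ s0, (m u : ℂ) * (u⁻¹) ^ (k + 1) +
        ∑ u ∈ s.filter (fun u => ¬ ‖u‖⁻¹ = R), (m u : ℂ) * (u⁻¹) ^ (k + 1) :=
      (Finset.sum_filter_add_sum_filter_not s _ _).symm
    rw [hsplit]
    have e : -(∑ u ∈ s0, (m u : ℂ) * (u⁻¹) ^ (k + 1) +
        ∑ u ∈ s.filter (fun u => ¬ ‖u‖⁻¹ = R), (m u : ℂ) * (u⁻¹) ^ (k + 1)) +
        iteratedDeriv k (logDeriv g) 0 / k.factorial + ∑ u ∈ s0, (m u : ℂ) * (u⁻¹) ^ (k + 1) =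
        iteratedDeriv k (logDeriv g) 0 / k.factorial -
          ∑ u ∈ s.filter (fun u => ¬ ‖u‖⁻¹ = R), (m u : ℂ) * (u⁻¹) ^ (k + 1) := by ring
    rw [e]
    set q : ℝ := max q1 r⁻¹ with hq
    have hq0 : 0 ≤ q := le_max_of_le_left hq10
    refine (norm_sub_le _ _).trans ?_
    have b1 : ‖iteratedDeriv k (logDeriv g) 0 / k.factorial‖ ≤ M * r * q ^ (k + 1) := by
      refine (hcauchy k).trans ?_
      have h1 : M / r ^ k = M * r * (r⁻¹) ^ (k + 1) := by
        rw [inv_pow, pow_succ]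
        field_simp
      rw [h1]
      have h2 : (r⁻¹) ^ (k + 1) ≤ q ^ (k + 1) := pow_le_pow_left₀ (by positivity) (le_max_right _ _) _
      exact mul_le_mul_of_nonneg_left h2 (by positivity)
    have b2 : ‖∑ u ∈ s.filter (fun u => ¬ ‖u‖⁻¹ = R), (m u : ℂ) * (u⁻¹) ^ (k + 1)‖ ≤
        (∑ u ∈ s, (m u : ℝ)) * q ^ (k + 1) := by
      refine (norm_sum_le _ _).trans ?_
      rw [Finset.sum_mul]
      refine (Finset.sum_le_sum (g := fun u => (m u : ℝ) * q ^ (k + 1)) fun u hu => ?_).trans ?_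
      · rw [Finset.mem_filter] at hu
        rw [norm_mul, Complex.norm_natCast, norm_pow, norm_inv]
        have h1 : ‖u‖⁻¹ ≤ q := (hq1 u hu.1 hu.2).trans (le_max_left _ _)
        exact mul_le_mul_of_nonneg_left (pow_le_pow_left₀ (by positivity) h1 _) (by positivity)
      · refine Finset.sum_le_sum_of_subset_of_nonneg (Finset.filter_subset _ _) fun u _ _ => by positivity
    linarith

end Pool.Agent.X9.Li
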