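import Pool.Agent.X9.Li.Factor
import Pool.Agent.H24R2.JP.All

set_option autoImplicit false

/-!
# Nonnegativity of the Li coefficients when there are no zeros in the half plane
-/

namespace Pool.Agent.X9.Li

open Complex Filter Metric Topology Polynomial
open Pool.Agent.H24R2.JP (XX FF gam)

/-- the Moebius transformation -/
noncomputable def sm (a w : ℂ) : ℂ := (1 - a * w) / (1 - w)

lemma lam_congr {f g : ℂ → ℂ} (h : f =ᶠ[𝓝 0] g) (n : ℕ) : lam f n = lam g n := by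
  unfold lam
  have h1 : logDeriv f =ᶠ[𝓝 0] logDeriv g := by
    filter_upwards [h.eventuallyEq_nhds] with w hw
    simp only [logDeriv_apply]
    rw [hw.deriv_eq, hw.eq_of_nhds]
  rw [h1.iteratedDeriv_eq]

lemma ana_logDeriv {f : ℂ → ℂ} (hf : AnalyticAt ℂ f 0) (h0 : f 0 ≠ 0) : AnalyticAt ℂ (logDeriv f) 0 :=
  hf.deriv.div hf h0

lemma lam_mul {f g : ℂ → ℂ} (hf : AnalyticAt ℂ f 0) (hf0 : f 0 ≠ 0) (hg : AnalyticAt ℂ g 0) (hg0 : g 0 ≠ 0)
    (n : ℕ) : lam (fun w => f w * g w) n = lam f n + lam g n := by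
  unfold lam
  have h1 : logDeriv (fun w => f w * g w) =ᶠ[𝓝 0] fun w => logDeriv f w + logDeriv g w := by
    filter_upwards [hf.eventually_analyticAt, hg.eventually_analyticAt, hf.continuousAt.eventually_ne hf0,
      hg.continuousAt.eventually_ne hg0] with w h1 h2 h3 h4
    exact logDeriv_mul w h3 h4 h1.differentiableAt h2.differentiableAt
  rw [h1.iteratedDeriv_eq, iteratedDeriv_fun_add (ana_logDeriv hf hf0).contDiffAt (ana_logDeriv hg hg0).contDiffAt,
    add_div]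

lemma lam_div {f g : ℂ → ℂ} (hf : AnalyticAt ℂ f 0) (hf0 : f 0 ≠ 0) (hg : AnalyticAt ℂ g 0) (hg0 : g 0 ≠ 0)
    (n : ℕ) : lam (fun w => f w / g w) n = lam f n - lam g n := by
  have h1 : lam (fun w => (f w / g w) * g w) n = lam (fun w => f w / g w) n + lam g n :=
    lam_mul (hf.fun_div hg hg0) (div_ne_zero hf0 hg0) hg hg0 n
  have h2 : lam (fun w => (f w / g w) * g w) n = lam f n := by
    apply lam_congr
    filter_upwards [hg.continuousAt.eventually_ne hg0] with w hw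
    exact div_mul_cancel₀ _ hw
  rw [← h2, h1]
  ring

lemma lam_const (c : ℂ) (n : ℕ) : lam (fun _ => c) n = 0 := by
  unfold lam
  have : logDeriv (fun _ : ℂ => c) = fun _ => 0 := by
    ext w
    simp [logDeriv_apply]
  rw [this, iteratedDeriv_const]
  split_ifs <;> simp

lemma lam_lin {b c : ℂ} (hb : b ≠ 0) {n : ℕ} (hn : 1 ≤ n) : lam (fun w => b - c * w) n = -(c / b) ^ n := by
  obtain ⟨k, rfl⟩ : ∃ k, n = k + 1 := ⟨n - 1, by omega⟩
  unfold lam
  rw [Nat.add_sub_cancel]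
  have h1 : logDeriv (fun w : ℂ => b - c * w) = fun w => (-c) * ((-c) * w + b)⁻¹ := by
    ext w
    rw [logDeriv_apply]
    have h2 : HasDerivAt (fun w : ℂ => b - c * w) (-c) w := by
      simpa using ((hasDerivAt_id w).const_mul c).const_sub b
    rw [h2.deriv, div_eq_mul_inv]
    congr 2
    ring
  have h3 := congrFun (iter_deriv_inv_linear k (-c) b) 0
  rw [h1, iteratedDeriv_const_mul_field, iteratedDeriv_eq_iterate, h3]
  have hk : (k.factorial : ℂ) ≠ 0 := by exact_mod_cast k.factorial_ne_zero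
  have h4 : ((-c) * 0 + b) ^ (-1 - (k : ℤ)) = (b ^ (k + 1))⁻¹ := by
    rw [mul_zero, zero_add]
    have h2 : (-1 - (k : ℤ)) = -((k + 1 : ℕ) : ℤ) := by
      push_cast
      ring
    rw [h2, zpow_neg, zpow_natCast]
  rw [h4, div_pow]
  have h5 : (-1 : ℂ) ^ k * (-c) ^ k = c ^ k := by
    rw [← mul_pow]
    ring
  have hbk : b ^ (k + 1) ≠ 0 := pow_ne_zero _ hb
  calc -c * ((-1) ^ k * (k.factorial : ℂ) * (-c) ^ k * (b ^ (k + 1))⁻¹) / (k.factorial : ℂ)
      = -c * (((-1 : ℂ) ^ k * (-c) ^ k) * (k.factorial : ℂ) * (b ^ (k + 1))⁻¹) / (k.factorial : ℂ) := by ring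
    _ = -(c ^ (k + 1) / b ^ (k + 1)) := by
      rw [h5]
      field_simp
      ring

/-- the class of functions with nonnegative coefficients -/
def Gd (G : ℂ → ℂ) : Prop :=
  AnalyticAt ℂ G 0 ∧ G 0 ≠ 0 ∧ ∀ n : ℕ, 1 ≤ n → 0 ≤ (lam G n).re ∧
    (lam G 1).re ≤ 2 * ((lam G n).re + (lam G (n + 1)).re)

lemma Gd.mul {f g : ℂ → ℂ} (hf : Gd f) (hg : Gd g) : Gd (fun w => f w * g w) := by
  refine ⟨hf.1.fun_mul hg.1, mul_ne_zero hf.2.1 hg.2.1, fun n hn => ?_⟩
  rw [lam_mul hf.1 hf.2.1 hg.1 hg.2.1, lam_mul hf.1 hf.2.1 hg.1 hg.2.1, lam_mul hf.1 hf.2.1 hg.1 hg.2.1]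
  have h1 := hf.2.2 n hn
  have h2 := hg.2.2 n hn
  simp only [Complex.add_re]
  constructor
  · linarith [h1.1, h2.1]
  · linarith [h1.2, h2.2]

lemma Gd.const {c : ℂ} (hc : c ≠ 0) : Gd (fun _ => c) := by
  refine ⟨analyticAt_const, hc, fun n _ => ?_⟩
  simp [lam_const]

lemma re_ineq {u : ℂ} (hu : ‖u‖ ≤ 1) {n : ℕ} (hn : 1 ≤ n) :
    (1 - u).re ≤ 2 * ((1 - u ^ n).re + (1 - u ^ (n + 1)).re) := by
  have key : ∀ v : ℂ, (1 - v).re = (‖1 - v‖ ^ 2 + (1 - ‖v‖ ^ 2)) / 2 := by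
    intro v
    rw [Complex.sq_norm, Complex.sq_norm, Complex.normSq_apply, Complex.normSq_apply]
    simp only [Complex.sub_re, Complex.one_re, Complex.sub_im, Complex.one_im]
    ring
  have hp : ∀ m : ℕ, 1 ≤ m → ‖u ^ m‖ ^ 2 ≤ ‖u‖ ^ 2 := by
    intro m hm
    rw [norm_pow]
    refine pow_le_pow_left₀ (by positivity) ?_ 2
    exact pow_le_of_le_one (norm_nonneg u) hu (by omega)
  have h1 := hp n hn
  have h2 := hp (n + 1) (by omega)
  have h3 : ‖1 - u‖ ≤ ‖1 - u ^ (n + 1)‖ + ‖1 - u ^ n‖ := by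
    have e : 1 - u = (1 - u ^ (n + 1)) - u * (1 - u ^ n) := by ring
    rw [e]
    refine (norm_sub_le _ _).trans ?_
    rw [norm_mul]
    have := mul_le_mul_of_nonneg_right hu (norm_nonneg (1 - u ^ n))
    linarith
  have h4 : ‖1 - u‖ ^ 2 ≤ 2 * (‖1 - u ^ (n + 1)‖ ^ 2 + ‖1 - u ^ n‖ ^ 2) := by
    have h5 : ‖1 - u‖ ^ 2 ≤ (‖1 - u ^ (n + 1)‖ + ‖1 - u ^ n‖) ^ 2 := pow_le_pow_left₀ (norm_nonneg _) h3 2
    nlinarith [sq_nonneg (‖1 - u ^ (n + 1)‖ - ‖1 - u ^ n‖)]
  have h6 : ‖u‖ ^ 2 ≤ 1 := pow_le_one₀ (norm_nonneg _) hu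
  rw [key u, key (u ^ n), key (u ^ (n + 1))]
  nlinarith

lemma lam_factor {a ρ : ℂ} (hρ : ρ ≠ 1) {n : ℕ} (hn : 1 ≤ n) :
    lam (fun w => sm a w - ρ) n = 1 - ((a - ρ) / (1 - ρ)) ^ n := by
  have hb : (1 : ℂ) - ρ ≠ 0 := sub_ne_zero.2 hρ.symm
  have h1 : (fun w => sm a w - ρ) =ᶠ[𝓝 0] fun w => ((1 - ρ) - (a - ρ) * w) / (1 - 1 * w) := by
    have h2 : ∀ᶠ w in 𝓝 (0 : ℂ), w ≠ 1 := continuousAt_id.eventually_ne (by norm_num)
    filter_upwards [h2] with w hw
    have hw' : (1 : ℂ) - w ≠ 0 := sub_ne_zero.2 hw.symm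
    unfold sm
    rw [one_mul]
    field_simp
    ring
  rw [lam_congr h1, lam_div (by fun_prop) (by simpa using hb) (by fun_prop) (by simp), lam_lin hb hn,
    lam_lin one_ne_zero hn]
  simp
  ring

lemma sm_zero (a : ℂ) : sm a 0 = 1 := by simp [sm]

lemma ana_sm (a : ℂ) {w : ℂ} (hw : w ≠ 1) : AnalyticAt ℂ (sm a) w := by
  unfold sm
  refine AnalyticAt.fun_div (by fun_prop) (by fun_prop) (sub_ne_zero.2 hw.symm)

lemma Gd.factor {a : ℝ} {ρ : ℂ} (ha : a < 1) (hρ : ρ.re ≤ (1 + a) / 2) : Gd (fun w => sm a w - ρ) := by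
  have hρ1 : ρ ≠ 1 := by
    rintro rfl
    simp at hρ
    linarith
  have hb : (1 : ℂ) - ρ ≠ 0 := sub_ne_zero.2 hρ1.symm
  refine ⟨(ana_sm _ (by norm_num)).fun_sub analyticAt_const, ?_, fun n hn => ?_⟩
  · simp only [sm_zero]
    exact hb
  have hu : ‖((a : ℂ) - ρ) / (1 - ρ)‖ ≤ 1 := by
    rw [norm_div, div_le_one (norm_pos_iff.2 hb), ← sq_le_sq₀ (norm_nonneg _) (norm_nonneg _), Complex.sq_norm,
      Complex.sq_norm, Complex.normSq_apply, Complex.normSq_apply]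
    simp only [Complex.sub_re, Complex.ofReal_re, Complex.sub_im, Complex.ofReal_im, Complex.one_re,
      Complex.one_im]
    nlinarith
  rw [lam_factor hρ1 hn, lam_factor hρ1 le_rfl, lam_factor hρ1 (by omega), pow_one]
  refine ⟨?_, re_ineq hu hn⟩
  have h1 : ‖(((a : ℂ) - ρ) / (1 - ρ)) ^ n‖ ≤ 1 := by
    rw [norm_pow]
    exact pow_le_one₀ (norm_nonneg _) hu
  have h2 := (Complex.re_le_norm _).trans h1
  rw [Complex.sub_re, Complex.one_re]
  linarith

/-- for a polynomial -/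
lemma Gd.poly {a : ℝ} (ha : a < 1) (P : ℝ[X]) (hP : P ≠ 0)
    (h : ∀ z : ℂ, aeval (z ^ 2) P = 0 → (1 / 2 + z).re ≤ (1 + a) / 2) :
    Gd (fun w => aeval ((sm a w - 1 / 2) ^ 2) P) := by
  set Q : ℂ[X] := P.map (algebraMap ℝ ℂ) with hQ
  have hQ0 : Q ≠ 0 := (Polynomial.map_ne_zero_iff (algebraMap ℝ ℂ).injective).2 hP
  have hae : ∀ x : ℂ, aeval x P = Q.eval x := fun x => by rw [hQ, eval_map_algebraMap]
  have hsplit := (IsAlgClosed.splits Q).eq_prod_roots
  have hev : ∀ x : ℂ, aeval x P = Q.leadingCoeff * (Q.roots.map fun y => x - y).prod := by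
    intro x
    rw [hae]
    conv_lhs => rw [hsplit]
    rw [eval_mul, eval_C, eval_multiset_prod, Multiset.map_map]
    congr 2
    simp
  have hroot : ∀ y ∈ Q.roots, Gd (fun w => (sm a w - 1 / 2) ^ 2 - y) := by
    intro y hy
    have hy0 : aeval y P = 0 := by
      rw [hae]
      exact (mem_roots hQ0).1 hy
    obtain ⟨z, rfl⟩ := IsAlgClosed.exists_pow_nat_eq y (n := 2) (by norm_num)
    have h1 := h z hy0
    have h2 := h (-z) (by rw [neg_sq]; exact hy0)
    have e : (fun w => (sm a w - 1 / 2) ^ 2 - z ^ 2) = fun w => (sm a w - (1 / 2 + z)) * (sm a w - (1 / 2 + -z)) := by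
      ext w
      ring
    rw [e]
    exact (Gd.factor ha h1).mul (Gd.factor ha h2)
  have hms : ∀ M : Multiset ℂ, (∀ y ∈ M, Gd (fun w => (sm a w - 1 / 2) ^ 2 - y)) →
      Gd (fun w => (M.map fun y => (sm a w - 1 / 2) ^ 2 - y).prod) := by
    intro M
    induction M using Multiset.induction_on with
    | empty =>
      intro _
      simp only [Multiset.map_zero, Multiset.prod_zero]
      exact Gd.const one_ne_zero
    | cons y M ih =>
      intro hM
      simp only [Multiset.map_cons, Multiset.prod_cons]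
      exact (hM y (Multiset.mem_cons_self _ _)).mul (ih fun y' hy' => hM y' (Multiset.mem_cons_of_mem hy'))
  have e : (fun w => aeval ((sm a w - 1 / 2) ^ 2) P) = fun w => Q.leadingCoeff *
      (Q.roots.map fun y => (sm a w - 1 / 2) ^ 2 - y).prod := by
    ext w
    exact hev _
  rw [e]
  exact (Gd.const (leadingCoeff_ne_zero.2 hQ0)).mul (hms _ hroot)

/-- convergence of the Taylor coefficients -/
lemma iter_tendsto {G : ℕ → ℂ → ℂ} {H : ℂ → ℂ} {U : Set ℂ} (hU : IsOpen U)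
    (hG : ∀ N, DifferentiableOn ℂ (G N) U) (h : TendstoLocallyUniformlyOn G H atTop U) (k : ℕ) :
    TendstoLocallyUniformlyOn (fun N => iteratedDeriv k (G N)) (iteratedDeriv k H) atTop U := by
  induction k with
  | zero => simpa using h
  | succ k ih =>
    have hd : ∀ N, DifferentiableOn ℂ (iteratedDeriv k (G N)) U := by
      intro N
      intro x hx
      have h1 : AnalyticAt ℂ (G N) x := (hG N).analyticAt (hU.mem_nhds hx)
      have h2 := h1.iterated_deriv k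
      rw [← iteratedDeriv_eq_iterate] at h2
      exact h2.differentiableAt.differentiableWithinAt
    have h1 := ih.deriv (Eventually.of_forall hd) hU
    have h2 : (deriv ∘ fun N => iteratedDeriv k (G N)) = fun N => iteratedDeriv (k + 1) (G N) := by
      funext N
      rw [Function.comp_apply, iteratedDeriv_succ]
    rw [h2, ← iteratedDeriv_succ] at h1
    exact h1

lemma lam_tendsto {G : ℕ → ℂ → ℂ} {H : ℂ → ℂ} {U : Set ℂ} (hU : IsOpen U) (h0U : (0 : ℂ) ∈ U)
    (hG : ∀ N, DifferentiableOn ℂ (G N) U) (hG0 : ∀ N, G N 0 ≠ 0) (hH : DifferentiableOn ℂ H U) (hH0 : H 0 ≠ 0)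
    (h : TendstoLocallyUniformlyOn G H atTop U) (n : ℕ) :
    Tendsto (fun N => lam (G N) n) atTop (𝓝 (lam H n)) := by
  have hT : ∀ k, Tendsto (fun N => iteratedDeriv k (G N) 0) atTop (𝓝 (iteratedDeriv k H 0)) := fun k =>
    (iter_tendsto hU hG h k).tendsto_at h0U
  -- the recursion
  have hrec : ∀ F : ℂ → ℂ, AnalyticAt ℂ F 0 → F 0 ≠ 0 → ∀ k : ℕ, iteratedDeriv k (logDeriv F) 0 =
      (iteratedDeriv (k + 1) F 0 - ∑ i ∈ Finset.range k,
        (k.choose i : ℂ) * iteratedDeriv i (logDeriv F) 0 * iteratedDeriv (k - i) F 0) / F 0 := by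
    intro F hF hF0 k
    have h1 : deriv F =ᶠ[𝓝 0] (logDeriv F * F) := by
      filter_upwards [hF.continuousAt.eventually_ne hF0] with w hw
      rw [Pi.mul_apply, logDeriv_apply, div_mul_cancel₀ _ hw]
    have h2 : iteratedDeriv (k + 1) F 0 = ∑ i ∈ Finset.range (k + 1),
        (k.choose i : ℂ) * iteratedDeriv i (logDeriv F) 0 * iteratedDeriv (k - i) F 0 := by
      rw [iteratedDeriv_succ', h1.iteratedDeriv_eq,
        iteratedDeriv_mul (ana_logDeriv hF hF0).contDiffAt hF.contDiffAt]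
    rw [Finset.sum_range_succ, Nat.choose_self, Nat.sub_self, iteratedDeriv_zero] at h2
    rw [eq_div_iff hF0, h2]
    push_cast
    ring
  have hTl : ∀ k, Tendsto (fun N => iteratedDeriv k (logDeriv (G N)) 0) atTop
      (𝓝 (iteratedDeriv k (logDeriv H) 0)) := by
    intro k
    induction k using Nat.strong_induction_on with
    | _ k ih =>
      rw [hrec H (hH.analyticAt (hU.mem_nhds h0U)) hH0 k]
      have e : (fun N => iteratedDeriv k (logDeriv (G N)) 0) = fun N =>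
          (iteratedDeriv (k + 1) (G N) 0 - ∑ i ∈ Finset.range k,
            (k.choose i : ℂ) * iteratedDeriv i (logDeriv (G N)) 0 * iteratedDeriv (k - i) (G N) 0) / G N 0 := by
        funext N
        exact hrec (G N) ((hG N).analyticAt (hU.mem_nhds h0U)) (hG0 N) k
      rw [e]
      refine Tendsto.div (Tendsto.sub (hT (k + 1)) ?_) ?_ hH0
      · refine tendsto_finsetSum _ fun i hi => ?_
        exact ((ih i (Finset.mem_range.1 hi)).const_mul _).mul (hT (k - i))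
      · simpa using hT 0
  unfold lam
  exact (hTl (n - 1)).div_const _

end Pool.Agent.X9.Li
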