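import Pool.Agent.X9.Li.Pos

set_option autoImplicit false

/-!
# The Li coefficients of the Riemann xi function for half planes
-/

namespace Pool.Agent.X9.Li

open Complex Filter Metric Topology Polynomial
open Pool.Agent.H24R2.JP (XX FF gam)

/-- the Riemann xi function -/
noncomputable def xi (s : ℂ) : ℂ := s * (s - 1) / 2 * completedRiemannZeta₀ s + 1 / 2

/-- `2 ξ` in the coordinate of the disc -/
noncomputable def phi (σ : ℝ) (w : ℂ) : ℂ := 2 * xi ((1 - (2 * σ - 1) * w) / (1 - w))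

/-- The zeta function has no zeros with `Re s > σ`. -/
def ZeroFree (σ : ℝ) : Prop := ∀ s : ℂ, σ < s.re → riemannZeta s ≠ 0

/-- the Li coefficient -/
noncomputable def li (σ : ℝ) (n : ℕ) : ℝ :=
  (iteratedDeriv n (fun w : ℂ => Complex.log (2 * xi ((1 - (2 * σ - 1) * w) / (1 - w)))) 0 /
    (n - 1).factorial).re

lemma xi_eq (s : ℂ) : 8 * xi s = XX (s - 1 / 2) := by
  unfold xi XX
  have : (1 / 2 + (s - 1 / 2) : ℂ) = s := by ring
  rw [this]
  ring

lemma xi_one : xi 1 = 1 / 2 := by simp [xi]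

lemma xi_zero_iff {s : ℂ} (hs : 0 < s.re) : xi s = 0 ↔ riemannZeta s = 0 := by
  have hs0 : s ≠ 0 := by
    rintro rfl
    simp at hs
  rcases eq_or_ne s 1 with rfl | hs1
  · rw [xi_one]
    constructor
    · intro h
      norm_num at h
    · intro h
      exact absurd h (riemannZeta_ne_zero_of_one_le_re (by simp))
  · have h1 : xi s = s * (s - 1) / 2 * completedRiemannZeta s := by
      unfold xi
      rw [completedRiemannZeta_eq]
      have : (1 : ℂ) - s ≠ 0 := sub_ne_zero.2 hs1.symm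
      have h3 : s - 1 ≠ 0 := sub_ne_zero.2 hs1
      field_simp
      ring
    have h2 : completedRiemannZeta s = riemannZeta s * Gammaℝ s := by
      rw [riemannZeta_def_of_ne_zero hs0, div_mul_cancel₀ _ (Gammaℝ_ne_zero_of_re_pos hs)]
    rw [h1, h2]
    have h3 : s - 1 ≠ 0 := sub_ne_zero.2 hs1
    have h4 := Gammaℝ_ne_zero_of_re_pos hs
    constructor
    · intro h
      rcases mul_eq_zero.1 h with h | h
      · exfalso
        rcases div_eq_zero_iff.1 h with h | h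
        · exact mul_ne_zero hs0 h3 h
        · norm_num at h
      · exact (mul_eq_zero.1 h).resolve_right h4
    · intro h
      rw [h]
      ring

lemma phi_eq (σ : ℝ) (w : ℂ) : phi σ w = 2 * xi (sm ((2 * σ - 1 : ℝ) : ℂ) w) := by
  unfold phi sm
  push_cast
  rfl

lemma phi_zero (σ : ℝ) : phi σ 0 = 1 := by
  rw [phi_eq, sm_zero, xi_one]
  norm_num

lemma xi_diff : Differentiable ℂ xi := by
  unfold xi
  have := differentiable_completedZeta₀
  fun_prop

lemma phi_diff (σ : ℝ) : DifferentiableOn ℂ (phi σ) (ball 0 1) := by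
  intro w hw
  have hw1 : w ≠ 1 := by
    rintro rfl
    simp at hw
  have h1 : phi σ = fun w => 2 * xi (sm ((2 * σ - 1 : ℝ) : ℂ) w) := funext (phi_eq σ)
  rw [h1]
  have h2 := (xi_diff (sm ((2 * σ - 1 : ℝ) : ℂ) w)).comp w (ana_sm _ hw1).differentiableAt
  exact (h2.const_mul 2).differentiableWithinAt

lemma li_eq (σ : ℝ) {n : ℕ} (hn : 1 ≤ n) : li σ n = (lam (phi σ) n).re := by
  obtain ⟨k, rfl⟩ : ∃ k, n = k + 1 := ⟨n - 1, by omega⟩
  unfold li lam
  rw [Nat.add_sub_cancel, iteratedDeriv_succ']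
  congr 2
  apply Filter.EventuallyEq.iteratedDeriv_eq
  have hA : AnalyticAt ℂ (phi σ) 0 := (phi_diff σ).analyticAt (ball_mem_nhds _ one_pos)
  have h1 : ∀ᶠ w in 𝓝 (0 : ℂ), phi σ w ∈ slitPlane := by
    apply hA.continuousAt.eventually_mem
    rw [phi_zero]
    exact isOpen_slitPlane.mem_nhds one_mem_slitPlane
  filter_upwards [h1, hA.eventually_analyticAt] with w hw hw2
  have h2 : HasDerivAt (fun w => Complex.log (phi σ w)) (deriv (phi σ) w / phi σ w) w :=
    (hw2.differentiableAt.hasDerivAt).clog hw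
  rw [logDeriv_apply]
  exact h2.deriv

/-! ## no zeros -/

open scoped ComplexOrder in
lemma FF_deriv_pos : 0 < (deriv FF (1 / 4)).re := by
  obtain ⟨hd, -, -, h0⟩ := Pool.Agent.H24R2.JP.b1
  have h8 := Pool.Agent.H24R2.JP.gamT
  have hdn : Differentiable ℂ (iteratedDeriv 1 FF) := hd.contDiff.differentiable_iteratedDeriv' 1
  have hle := Differentiable.apply_le_of_iteratedDeriv_nonneg (c := 0) hdn (fun m _ => by
    have e : iteratedDeriv m (iteratedDeriv 1 FF) = iteratedDeriv (m + 1) FF := by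
      rw [iteratedDeriv_eq_iterate, iteratedDeriv_eq_iterate, iteratedDeriv_eq_iterate,
        Function.iterate_add_apply]
    rw [e, h0]
    exact Complex.zero_le_real.2 (h8.1 _).le) (z := ((1 / 4 : ℝ) : ℂ)) (Complex.zero_le_real.2 (by norm_num))
  rw [h0] at hle
  have := (Complex.le_def.1 hle).1
  rw [iteratedDeriv_one] at this
  push_cast at this
  simp only [ofReal_re] at this
  linarith [h8.1 1]

lemma lam_phi (σ : ℝ) (n : ℕ) :
    lam (phi σ) n = lam (fun w => FF ((sm ((2 * σ - 1 : ℝ) : ℂ) w - 1 / 2) ^ 2)) n := by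
  obtain ⟨hd, hsq, -, -⟩ := Pool.Agent.H24R2.JP.b1
  have h1 : (fun w => FF ((sm ((2 * σ - 1 : ℝ) : ℂ) w - 1 / 2) ^ 2)) = fun w => 4 * phi σ w := by
    ext w
    rw [hsq, ← xi_eq, phi_eq]
    ring
  have hA : AnalyticAt ℂ (phi σ) 0 := (phi_diff σ).analyticAt (ball_mem_nhds _ one_pos)
  rw [h1, lam_mul analyticAt_const (by norm_num) hA (by rw [phi_zero]; norm_num), lam_const, zero_add]

lemma lam_one_pos {σ : ℝ} (hσ : σ < 1) : 0 < (lam (phi σ) 1).re := by
  obtain ⟨hd, hsq, -, -⟩ := Pool.Agent.H24R2.JP.b1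
  set a : ℝ := 2 * σ - 1 with ha
  rw [lam_phi]
  unfold lam
  simp only [Nat.sub_self, iteratedDeriv_zero, Nat.factorial_zero, Nat.cast_one, div_one]
  rw [logDeriv_apply]
  have h1 : HasDerivAt (sm (a : ℂ)) (1 - a) 0 := by
    unfold sm
    have h2 : HasDerivAt (fun w : ℂ => 1 - (a : ℂ) * w) (-a) 0 := by
      simpa using ((hasDerivAt_id (0 : ℂ)).const_mul (a : ℂ)).const_sub 1
    have h3 : HasDerivAt (fun w : ℂ => 1 - w) (-1) 0 := by
      simpa using (hasDerivAt_id (0 : ℂ)).const_sub 1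
    have h4 := h2.div h3 (by simp)
    have e : (1 - a : ℂ) = (-a * (1 - 0) - (1 - (a : ℂ) * 0) * -1) / (1 - 0) ^ 2 := by
      ring
    rw [e]
    exact h4
  have h2 : HasDerivAt (fun w => FF ((sm (a : ℂ) w - 1 / 2) ^ 2)) (deriv FF (1 / 4) * (1 - a)) 0 := by
    have h3 : HasDerivAt (fun w => (sm (a : ℂ) w - 1 / 2) ^ 2) (1 - a : ℂ) 0 := by
      have h4 := (h1.sub_const (1 / 2)).fun_pow 2
      simp only [sm_zero] at h4
      have e : ((2 : ℕ) : ℂ) * (1 - 1 / 2) ^ (2 - 1) * (1 - (a : ℂ)) = 1 - a := by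
        norm_num
      rw [e] at h4
      exact h4
    have h5 : HasDerivAt FF (deriv FF (1 / 4)) ((sm (a : ℂ) 0 - 1 / 2) ^ 2) := by
      have e : (sm (a : ℂ) 0 - 1 / 2) ^ 2 = (1 / 4 : ℂ) := by
        rw [sm_zero]
        norm_num
      rw [e]
      exact (hd _).hasDerivAt
    exact h5.comp (0 : ℂ) h3
  have h3 : FF ((sm (a : ℂ) 0 - 1 / 2) ^ 2) = 4 := by
    rw [hsq, sm_zero]
    norm_num
    have := Pool.Agent.H24R2.JP.Zer.XX_half
    norm_num at this
    exact this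
  rw [h2.deriv, h3]
  have h4 : (deriv FF (1 / 4) * (1 - a) / 4 : ℂ) = (((1 - a) / 4 : ℝ) : ℂ) * deriv FF (1 / 4) := by
    push_cast
    ring
  rw [h4, Complex.re_ofReal_mul]
  have := FF_deriv_pos
  have h5 : 0 < (1 - a) / 4 := by
    rw [ha]
    linarith
  positivity

theorem pos_of_zeroFree {σ : ℝ} (h1 : 1 / 2 ≤ σ) (h2 : σ < 1) (hz : ZeroFree σ) {n : ℕ} (hn : 1 ≤ n) :
    0 ≤ (lam (phi σ) n).re ∧ (lam (phi σ) 1).re ≤ 2 * ((lam (phi σ) n).re + (lam (phi σ) (n + 1)).re) := by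
  obtain ⟨hd, hsq, hconj, -⟩ := Pool.Agent.H24R2.JP.b1
  obtain ⟨K, hK⟩ := Pool.Agent.H24R2.JP.growT
  set a : ℝ := 2 * σ - 1 with ha
  have ha1 : a < 1 := by rw [ha]; linarith
  have hF14 : FF (1 / 4) = 4 := by
    have h := hsq (1 / 2)
    rw [Pool.Agent.H24R2.JP.Zer.XX_half] at h
    have e : ((1 : ℂ) / 2) ^ 2 = 1 / 4 := by norm_num
    rw [e] at h
    exact h
  have hF0 : FF 0 ≠ 0 := by
    have h := Pool.Agent.H24R2.JP.b1.2.2.2 0
    rw [iteratedDeriv_zero] at h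
    rw [h]
    have := Pool.Agent.H24R2.JP.gamT.1 0
    exact_mod_cast this.ne'
  obtain ⟨P, hP, hlim⟩ := Pool.Agent.H24R2.JP.had FF K hd hF0 hconj hK
  have hzero : ∀ z : ℂ, FF (z ^ 2) = 0 → (1 / 2 + z).re ≤ (1 + a) / 2 := by
    intro z hz0
    by_contra hcon
    push Not at hcon
    have e : (1 + a) / 2 = σ := by rw [ha]; ring
    rw [e] at hcon
    refine hz (1 / 2 + z) hcon ?_
    rw [← xi_zero_iff (by linarith)]
    have h3 := xi_eq (1 / 2 + z)
    have h4 : (1 / 2 + z - 1 / 2 : ℂ) = z := by ring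
    rw [h4, ← hsq, hz0] at h3
    have h5 : (8 : ℂ) ≠ 0 := by norm_num
    exact (mul_eq_zero.1 h3).resolve_left h5
  have hPne : ∀ N, P N ≠ 0 := by
    intro N h
    apply hF0
    apply hP N 0
    rw [h]
    simp
  have hGd : ∀ N, Gd (fun w => aeval ((sm a w - 1 / 2) ^ 2) (P N)) := fun N =>
    Gd.poly ha1 (P N) (hPne N) fun z hz0 => hzero z (hP N _ hz0)
  have hsmd : ∀ w ∈ ball (0 : ℂ) 1, DifferentiableAt ℂ (fun w => (sm (a : ℂ) w - 1 / 2) ^ 2) w := by
    intro w hw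
    have hw1 : w ≠ 1 := by
      rintro rfl
      simp at hw
    exact ((ana_sm _ hw1).differentiableAt.sub_const _).pow 2
  have hT : ∀ m, Tendsto (fun N => lam (fun w => aeval ((sm a w - 1 / 2) ^ 2) (P N)) m) atTop
      (𝓝 (lam (phi σ) m)) := by
    intro m
    rw [lam_phi]
    refine lam_tendsto (U := ball 0 1) isOpen_ball (mem_ball_self one_pos) ?_ (fun N => (hGd N).2.1) ?_ ?_ ?_ m
    · intro N w hw
      have h3 : DifferentiableAt ℂ (fun x : ℂ => aeval x (P N)) ((sm (a : ℂ) w - 1 / 2) ^ 2) :=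
        ((P N).hasDerivAt_aeval _).differentiableAt
      exact (h3.comp w (hsmd w hw)).differentiableWithinAt
    · intro w hw
      exact ((hd _).comp w (hsmd w hw)).differentiableWithinAt
    · show FF ((sm ((a : ℝ) : ℂ) 0 - 1 / 2) ^ 2) ≠ 0
      rw [sm_zero]
      have : ((1 : ℂ) - 1 / 2) ^ 2 = 1 / 4 := by norm_num
      rw [this, hF14]
      norm_num
    · have h3 := (tendstoLocallyUniformlyOn_univ.2 hlim).comp (fun w => (sm (a : ℂ) w - 1 / 2) ^ 2)
        (Set.mapsTo_univ _ (ball (0 : ℂ) 1)) (fun w hw => (hsmd w hw).continuousAt.continuousWithinAt)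
      exact h3
  have hTr : ∀ m, Tendsto (fun N => (lam (fun w => aeval ((sm a w - 1 / 2) ^ 2) (P N)) m).re) atTop
      (𝓝 (lam (phi σ) m).re) := fun m => (Complex.continuous_re.tendsto _).comp (hT m)
  constructor
  · exact ge_of_tendsto' (hTr n) fun N => ((hGd N).2.2 n hn).1
  · exact le_of_tendsto_of_tendsto' (hTr 1) (((hTr n).add (hTr (n + 1))).const_mul 2)
      fun N => ((hGd N).2.2 n hn).2

/-! ## zeros -/

theorem neg_of_not_zeroFree {σ : ℝ} (h1 : 1 / 2 ≤ σ) (h2 : σ < 1) (hz : ¬ ZeroFree σ) :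
    ∃ (ι : Type) (_ : Fintype ι) (_ : Nonempty ι) (c : ι → ℂ) (R q K : ℝ), 1 < R ∧ 0 ≤ q ∧ q < R ∧
      (∀ i, ‖c i‖ = 1 ∧ c i ≠ 1) ∧
      ∀ n : ℕ, 1 ≤ n → |(lam (phi σ) n).re + R ^ n * (∑ i, c i ^ n).re| ≤ K * q ^ n := by
  set a : ℝ := 2 * σ - 1 with ha
  unfold ZeroFree at hz
  push Not at hz
  obtain ⟨s0, hs0, hζ⟩ := hz
  have hex : ∃ z ∈ ball (0 : ℂ) 1, phi σ z = 0 := by
    have hden : s0 - a ≠ 0 := by
      intro h
      have := congrArg Complex.re h
      simp at this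
      linarith
    refine ⟨(s0 - 1) / (s0 - a), ?_, ?_⟩
    · rw [mem_ball_zero_iff, norm_div, div_lt_one (norm_pos_iff.2 hden),
        ← sq_lt_sq₀ (norm_nonneg _) (norm_nonneg _), Complex.sq_norm, Complex.sq_norm, Complex.normSq_apply,
        Complex.normSq_apply]
      simp only [Complex.sub_re, Complex.ofReal_re, Complex.sub_im, Complex.ofReal_im, Complex.one_re,
        Complex.one_im]
      nlinarith
    · have h3 : sm (a : ℂ) ((s0 - 1) / (s0 - a)) = s0 := by
        unfold sm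
        have h4 : (1 : ℂ) - a ≠ 0 := by
          have : (1 : ℝ) - a ≠ 0 := by rw [ha]; linarith
          exact_mod_cast this
        have h5 : 1 - (s0 - 1) / (s0 - a) = (1 - a) / (s0 - a) := by
          field_simp
          ring
        have h6 : 1 - a * ((s0 - 1) / (s0 - a)) = s0 * (1 - a) / (s0 - a) := by
          field_simp
          ring
        rw [h5, h6]
        field_simp
      rw [phi_eq, h3, (xi_zero_iff (by linarith)).2 hζ, mul_zero]
  obtain ⟨ι, i1, i2, c, R, q, K, hR, hq0, hq, hc, hK⟩ := asym (phi_diff σ) (by rw [phi_zero]; norm_num) hex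
  refine ⟨ι, i1, i2, c, R, q, K, hR, hq0, hq, fun i => ⟨(hc i).1, fun hci => ?_⟩, fun n hn => ?_⟩
  · have h3 := (hc i).2
    rw [hci, mul_one, phi_eq] at h3
    have hR0 : (R : ℂ) ≠ 0 := by
      have : R ≠ 0 := by linarith
      exact_mod_cast this
    have hR1 : (R : ℂ) - 1 ≠ 0 := by
      have : R - 1 ≠ 0 := by linarith
      exact_mod_cast this
    have h4 : sm (a : ℂ) ((R : ℂ)⁻¹) = (((R - a) / (R - 1) : ℝ) : ℂ) := by
      unfold sm
      push_cast
      have h5 : (1 : ℂ) - (R : ℂ)⁻¹ = (R - 1) / R := by field_simp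
      have h6 : (1 : ℂ) - a * (R : ℂ)⁻¹ = (R - a) / R := by field_simp
      rw [h5, h6]
      field_simp
    rw [h4] at h3
    have h5 : (1 : ℝ) < (R - a) / (R - 1) := by
      rw [lt_div_iff₀ (by linarith)]
      rw [ha]
      linarith
    have h6 : xi (((R - a) / (R - 1) : ℝ) : ℂ) = 0 := by
      have h7 : (2 : ℂ) ≠ 0 := by norm_num
      exact (mul_eq_zero.1 h3).resolve_left h7
    rw [xi_zero_iff (by rw [Complex.ofReal_re]; linarith)] at h6
    exact riemannZeta_ne_zero_of_one_le_re (by rw [Complex.ofReal_re]; exact h5.le) h6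
  · have h3 := hK n hn
    have h4 : (lam (phi σ) n).re + R ^ n * (∑ i, c i ^ n).re = (lam (phi σ) n + R ^ n * ∑ i, c i ^ n).re := by
      rw [Complex.add_re, ← Complex.ofReal_pow, Complex.re_ofReal_mul]
    rw [h4]
    exact (Complex.abs_re_le_norm _).trans h3

/-- the criterion -/
theorem criterion {σ : ℝ} (h1 : 1 / 2 ≤ σ) (h2 : σ < 1) {S : Set ℕ} (hS : BohrRec S) :
    (ZeroFree σ ↔ ∀ n ∈ S, 0 < n → 0 ≤ li σ n) ∧
    (¬ ZeroFree σ → ∃ R : ℝ, 1 < R ∧ ∀ N : ℕ, ∃ n ∈ S, N ≤ n ∧ li σ n ≤ -R ^ n) := by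
  have key : ¬ ZeroFree σ → ∃ R : ℝ, 1 < R ∧ ∀ N : ℕ, ∃ n ∈ S, N ≤ n ∧ 0 < n ∧ li σ n ≤ -R ^ n := by
    intro hz
    obtain ⟨ι, i1, i2, c, R, q, K, hR, hq0, hq, hc, hK⟩ := neg_of_not_zeroFree h1 h2 hz
    set R' : ℝ := (1 + R) / 2 with hR'
    have hR'1 : 1 < R' := by rw [hR']; linarith
    have hR'R : R' < R := by rw [hR']; linarith
    obtain ⟨N1, hN1⟩ := ev_small (K := 1) (show (0 : ℝ) < R by linarith) (by linarith) hR'R
      (show (0 : ℝ) < 1 / 4 by norm_num)
    refine ⟨R', hR'1, fun N => ?_⟩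
    obtain ⟨n, hn, hN, hn0, hle⟩ := neg_of_bohr hS c (fun i => (hc i).1) (by linarith : (0 : ℝ) < R) hq0 hq
      (fun n => (lam (phi σ) n).re) hK (max N N1)
    refine ⟨n, hn, (le_max_left _ _).trans hN, hn0, ?_⟩
    rw [li_eq σ hn0]
    have h3 := hN1 n ((le_max_right _ _).trans hN)
    linarith
  refine ⟨⟨fun hz n _ hn0 => ?_, fun h => ?_⟩, fun hz => ?_⟩
  · rw [li_eq σ hn0]
    exact (pos_of_zeroFree h1 h2 hz hn0).1
  · by_contra hz
    obtain ⟨R, hR, hN⟩ := key hz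
    obtain ⟨n, hn, -, hn0, hle⟩ := hN 0
    have h3 := h n hn hn0
    have h4 : 0 < R ^ n := pow_pos (by linarith) n
    linarith
  · obtain ⟨R, hR, hN⟩ := key hz
    refine ⟨R, hR, fun N => ?_⟩
    obtain ⟨n, hn, h3, -, h4⟩ := hN N
    exact ⟨n, hn, h3, h4⟩

theorem syndetic_pos {σ : ℝ} (h1 : 1 / 2 ≤ σ) (h2 : σ < 1) :
    ∃ L : ℕ, ∀ m : ℕ, ∃ n, m ≤ n ∧ n ≤ m + L ∧ 0 < li σ n := by
  by_cases hz : ZeroFree σ
  · refine ⟨2, fun m => ?_⟩
    have h3 := (pos_of_zeroFree h1 h2 hz (n := m + 1) (by omega)).2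
    have h4 := lam_one_pos h2
    by_cases h5 : 0 < (lam (phi σ) (m + 1)).re
    · exact ⟨m + 1, by omega, by omega, by rw [li_eq σ (by omega)]; exact h5⟩
    · refine ⟨m + 2, by omega, by omega, ?_⟩
      rw [li_eq σ (by omega)]
      have h6 : (lam (phi σ) (m + 1 + 1)).re = (lam (phi σ) (m + 2)).re := rfl
      rw [h6] at h3
      linarith
  · obtain ⟨ι, i1, i2, c, R, q, K, hR, hq0, hq, hc, hK⟩ := neg_of_not_zeroFree h1 h2 hz
    obtain ⟨c0, hc0, L, hL⟩ := pos_syndetic c (fun i => (hc i).1) (fun i => (hc i).2)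
      (by linarith : (0 : ℝ) < R) hq0 hq (fun n => (lam (phi σ) n).re) hK
    refine ⟨L + 1, fun m => ?_⟩
    obtain ⟨n, hn1, hn2, hn3⟩ := hL (m + 1)
    refine ⟨n, by omega, by omega, ?_⟩
    rw [li_eq σ (by omega)]
    have : 0 < c0 * R ^ n := mul_pos hc0 (pow_pos (by linarith) n)
    linarith

theorem rh_iff : RiemannHypothesis ↔ ZeroFree (1 / 2) := by
  constructor
  · intro h s hs h0
    have h1 := h s h0 (by
      rintro ⟨n, rfl⟩
      have e : (-2 * ((n : ℂ) + 1)).re = -2 * ((n : ℝ) + 1) := by simp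
      rw [e] at hs
      have : (0 : ℝ) ≤ n := Nat.cast_nonneg n
      linarith) (by
      rintro rfl
      exact riemannZeta_ne_zero_of_one_le_re (by simp) h0)
    linarith
  · intro h s h0 h1 h2
    rcases lt_trichotomy s.re (1 / 2) with h3 | h3 | h3
    · exfalso
      have hs0 : s ≠ 0 := by
        rintro rfl
        rw [riemannZeta_zero] at h0
        norm_num at h0
      have hG : Gammaℝ s ≠ 0 := by
        intro hG
        obtain ⟨n, hn⟩ := Gammaℝ_eq_zero_iff.1 hG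
        rcases Nat.eq_zero_or_pos n with h4 | h4
        · apply hs0
          rw [hn, h4]
          simp
        · apply h1
          refine ⟨n - 1, ?_⟩
          rw [hn]
          have : ((n - 1 : ℕ) : ℂ) = n - 1 := by
            rw [Nat.cast_sub (by omega), Nat.cast_one]
          rw [this]
          ring
      have h5 : completedRiemannZeta s = 0 := by
        rw [riemannZeta_def_of_ne_zero hs0] at h0
        exact (div_eq_zero_iff.1 h0).resolve_right hG
      have h6 : (1 : ℂ) - s ≠ 0 := sub_ne_zero.2 (Ne.symm h2)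
      have h7 : riemannZeta (1 - s) = 0 := by
        rw [riemannZeta_def_of_ne_zero h6, completedRiemannZeta_one_sub, h5, zero_div]
      refine h (1 - s) ?_ h7
      rw [Complex.sub_re, Complex.one_re]
      linarith
    · exact h3
    · exact absurd h0 (h s h3)

end Pool.Agent.X9.Li
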